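import Pool.Agent.H940.P.Lg
import Pool.Agent.H940.G.Formal

set_option autoImplicit false
set_option linter.unusedSectionVars false
set_option linter.unusedVariables false

/-! # Tuples of germs which are weighted homogeneous in formal coordinates -/

namespace Pool.Agent.H940.P

open MvPowerSeries
open Pool.Agent.H940.Z (WHI)
open Pool.Agent.H940.G (WHG exists_X pderiv_aeval exists_inv)

variable {n T : ℕ}

/-- In the formal coordinates `η_1, …, η_n` (formal power series without constant terms and with an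
invertible Jacobian matrix at the origin) the hypersurfaces `{h_t = 0}` are given by the polynomials
`g_t` (for each `t` the ideals generated by `h_t` and `g_t(η)` in the ring of formal power series are
equal), where `g_t` is weighted homogeneous of degree `N_t` for the positive weights `w_1, …, w_n`
(which do not depend on `t`), and `∏ g_t` has no critical point outside of the origin. -/
structure WHT (h g : Fin T → MvPolynomial (Fin n) ℂ) (w : Fin n → ℕ)
    (N : Fin T → ℕ) (η : Fin n → MvPowerSeries (Fin n) ℂ) : Prop where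
  wpos : ∀ i, 0 < w i
  hom : ∀ t, MvPolynomial.IsWeightedHomogeneous w (g t) (N t)
  crit : ∀ v : Fin n → ℂ, (∀ i, MvPolynomial.eval v (MvPolynomial.pderiv i (∏ t, g t)) = 0) → v = 0
  cc : ∀ t, MvPowerSeries.constantCoeff (η t) = 0
  det : (Matrix.of fun u t => MvPowerSeries.coeff (Finsupp.single u 1) (η t)).det ≠ 0
  gen : ∀ t, Ideal.span {(h t : MvPowerSeries (Fin n) ℂ)} = Ideal.span {MvPolynomial.aeval η (g t)}

theorem coe_prod' {ι : Type} (s : Finset ι) (h : ι → MvPolynomial (Fin n) ℂ) :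
    ((∏ t ∈ s, h t : MvPolynomial (Fin n) ℂ) : MvPowerSeries (Fin n) ℂ) =
      ∏ t ∈ s, (h t : MvPowerSeries (Fin n) ℂ) :=
  map_prod (MvPolynomial.coeToMvPowerSeries.ringHom (R := ℂ) (σ := Fin n)) h s

theorem coe_sum' {ι : Type} (s : Finset ι) (h : ι → MvPolynomial (Fin n) ℂ) :
    ((∑ t ∈ s, h t : MvPolynomial (Fin n) ℂ) : MvPowerSeries (Fin n) ℂ) =
      ∑ t ∈ s, (h t : MvPowerSeries (Fin n) ℂ) :=
  map_sum (MvPolynomial.coeToMvPowerSeries.ringHom (R := ℂ) (σ := Fin n)) h s

theorem coe_nat' (k : ℕ) : ((k : MvPolynomial (Fin n) ℂ) : MvPowerSeries (Fin n) ℂ) = k :=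
  map_natCast (MvPolynomial.coeToMvPowerSeries.ringHom (R := ℂ) (σ := Fin n)) k

theorem coe_lg (h : Fin T → MvPolynomial (Fin n) ℂ) (a : Fin T → ℕ) (j : Fin n) :
    ((lg h a j : MvPolynomial (Fin n) ℂ) : MvPowerSeries (Fin n) ℂ) =
      lgD (pderiv ℂ j) Finset.univ a fun t => (h t : MvPowerSeries (Fin n) ℂ) := by
  rw [lg_def, coe_sum']
  unfold lgD
  refine Finset.sum_congr rfl fun t _ => ?_
  rw [MvPolynomial.coe_mul, MvPolynomial.coe_mul, coe_prod', coe_nat', pderiv_coe]

/-- the chain rule -/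
theorem lgD_aeval (η : Fin n → MvPowerSeries (Fin n) ℂ) (g : Fin T → MvPolynomial (Fin n) ℂ)
    (a : Fin T → ℕ) (j : Fin n) :
    lgD (pderiv ℂ j) Finset.univ a (fun t => MvPolynomial.aeval η (g t)) =
      ∑ r, MvPolynomial.aeval η (lg g a r) * pderiv ℂ j (η r) := by
  unfold lgD
  simp only [pderiv_aeval]
  have h1 : ∀ r, MvPolynomial.aeval η (lg g a r) * pderiv ℂ j (η r) =
      ∑ t, (a t : MvPowerSeries (Fin n) ℂ) * (MvPolynomial.aeval η (MvPolynomial.pderiv r (g t)) *
        pderiv ℂ j (η r)) * ∏ s ∈ Finset.univ.erase t, MvPolynomial.aeval η (g s) := by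
    intro r
    rw [lg_def, map_sum, Finset.sum_mul]
    refine Finset.sum_congr rfl fun t _ => ?_
    rw [map_mul, map_mul, map_natCast, map_prod]
    ring
  rw [Finset.sum_congr rfl fun r _ => h1 r, Finset.sum_comm]
  refine Finset.sum_congr rfl fun t _ => ?_
  rw [Finset.mul_sum, Finset.sum_mul]

section

variable {h g : Fin T → MvPolynomial (Fin n) ℂ} {w : Fin n → ℕ} {N : Fin T → ℕ}
  {η : Fin n → MvPowerSeries (Fin n) ℂ} (H : WHT h g w N η)

include H in
theorem WHT.whg : WHG (∏ t, h t) (∏ t, g t) w (∑ t, N t) η where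
  wpos := H.wpos
  hom := MvPolynomial.IsWeightedHomogeneous.prod _ _ _ fun t _ => H.hom t
  crit := H.crit
  cc := H.cc
  det := H.det
  gen := by
    rw [coe_prod', map_prod, ← Ideal.prod_span_singleton, ← Ideal.prod_span_singleton]
    exact Finset.prod_congr rfl fun t _ => H.gen t

variable (h0 : MvPolynomial.constantCoeff (∏ t, h t) = 0)
  (h1 : ∀ i, MvPolynomial.constantCoeff (MvPolynomial.pderiv i (∏ t, h t)) = 0)
  (a : Fin T → ℕ) (ha : ∀ t, 1 ≤ a t)

include H in
theorem exists_units : ∃ U : Fin T → MvPowerSeries (Fin n) ℂ, (∀ t, constantCoeff (U t) ≠ 0) ∧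
    ∀ t, (h t : MvPowerSeries (Fin n) ℂ) = U t * MvPolynomial.aeval η (g t) := by
  haveI : IsDomain (MvPowerSeries (Fin n) ℂ) := NoZeroDivisors.to_isDomain _
  have h2 : ∀ t, ∃ U : MvPowerSeries (Fin n) ℂ, constantCoeff U ≠ 0 ∧
      (h t : MvPowerSeries (Fin n) ℂ) = U * MvPolynomial.aeval η (g t) := by
    intro t
    obtain ⟨U, hU⟩ := Ideal.span_singleton_eq_span_singleton.1 (H.gen t).symm
    refine ⟨U, ?_, ?_⟩
    · have := (MvPowerSeries.isUnit_iff_constantCoeff.1 U.isUnit)
      exact this.ne_zero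
    · rw [← hU, mul_comm]
  choose U hU1 hU2 using h2
  exact ⟨U, hU1, hU2⟩

include H h0 h1 in
theorem whi' : WHI (∏ t, g t) w (∑ t, N t) := G.whi H.whg h0 h1

include H h0 h1 ha in
theorem na_pos (hn : 0 < n) : ((∑ t, a t * N t : ℕ) : ℂ) ≠ 0 := by
  have h2 := (whi' H h0 h1).lt ⟨0, hn⟩
  have h3 : ∑ t, N t ≤ ∑ t, a t * N t :=
    Finset.sum_le_sum fun t _ => Nat.le_mul_of_pos_left _ (ha t)
  have h4 : ∑ t, a t * N t ≠ 0 := by omega
  exact_mod_cast h4

include H h0 h1 ha in
/-- the common zeros -/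
theorem lg_crit (hn : 0 < n) (x : Fin n → ℂ) (hx : ∀ i, MvPolynomial.eval x (lg g a i) = 0) :
    x = 0 := by
  have h2 := congrArg (MvPolynomial.eval x) (lg_euler_w g a w N H.hom)
  rw [map_sum, map_mul, MvPolynomial.eval_C] at h2
  have h3 : ∑ i, MvPolynomial.eval x ((MvPolynomial.C (w i : ℂ) * MvPolynomial.X i) * lg g a i) =
      0 := Finset.sum_eq_zero fun i _ => by rw [map_mul, hx, mul_zero]
  rw [h3] at h2
  have h4 := (mul_eq_zero.1 h2.symm).resolve_left (na_pos H h0 h1 a ha hn)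
  have h5 := (whi' H h0 h1).ne hn
  refine (whi' H h0 h1).crit x |>.1 fun i => ?_
  rw [← lg_one g h5]
  exact lg_zero g (fun _ => 1) ha x h4 hx i

include H h0 h1 ha in
/-- the powers of the coordinates -/
theorem lg_pow_mem (hn : 0 < n) : ∃ M : ℕ, ∀ i,
    MvPolynomial.X i ^ M ∈ Ideal.span (Set.range fun i => lg g a i) := by
  have h1' : ∀ i, ∃ M : ℕ, MvPolynomial.X i ^ M ∈ Ideal.span (Set.range fun i => lg g a i) := by
    intro i
    have h2 : MvPolynomial.X i ∈ (Ideal.span (Set.range fun i => lg g a i)).radical := by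
      rw [← MvPolynomial.vanishingIdeal_zeroLocus_eq_radical (K := ℂ)]
      intro q hq
      rw [MvPolynomial.mem_zeroLocus_iff] at hq
      have h3 : q = 0 := lg_crit H h0 h1 a ha hn q fun i => hq _ (Ideal.subset_span ⟨i, rfl⟩)
      change MvPolynomial.eval q (MvPolynomial.X i) = 0
      rw [MvPolynomial.eval_X, h3]
      rfl
    exact h2
  choose M hM using h1'
  refine ⟨∑ i, M i, fun i => ?_⟩
  exact Ideal.mem_of_dvd _ (pow_dvd_pow _ (Finset.single_le_sum (fun i _ => Nat.zero_le (M i))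
    (Finset.mem_univ i))) (hM i)

include H h0 h1 ha in
theorem euler_eta (hn : 0 < n) : MvPolynomial.aeval η (∏ t, g t) =
    C ((((∑ t, a t * N t : ℕ) : ℂ))⁻¹) *
      ∑ r, C (w r : ℂ) * η r * MvPolynomial.aeval η (lg g a r) := by
  have hN := na_pos H h0 h1 a ha hn
  have heul : (C (((∑ t, a t * N t : ℕ) : ℂ)) : MvPowerSeries (Fin n) ℂ) *
      MvPolynomial.aeval η (∏ t, g t) =
      ∑ r, C (w r : ℂ) * η r * MvPolynomial.aeval η (lg g a r) := by
    have h2 := congrArg (MvPolynomial.aeval η) (lg_euler_w g a w N H.hom)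
    rw [map_mul, MvPolynomial.algHom_C, map_sum] at h2
    have h3 : (algebraMap ℂ (MvPowerSeries (Fin n) ℂ)) (((∑ t, a t * N t : ℕ) : ℂ)) =
        C (((∑ t, a t * N t : ℕ) : ℂ)) := rfl
    rw [h3] at h2
    rw [← h2]
    refine Finset.sum_congr rfl fun r _ => ?_
    rw [map_mul, map_mul, MvPolynomial.algHom_C, MvPolynomial.aeval_X]
    rfl
  rw [← heul, ← mul_assoc, ← map_mul, inv_mul_cancel₀ hN, map_one, one_mul]

include H h0 h1 ha in
/-- the logarithmic gradient of `g` at `η` in terms of the one of `h` -/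
theorem exists_B' (hn : 0 < n) : ∃ B : Matrix (Fin n) (Fin n) (MvPowerSeries (Fin n) ℂ), ∀ r,
    MvPolynomial.aeval η (lg g a r) =
      ∑ t, B r t * (lg h a t : MvPowerSeries (Fin n) ℂ) := by
  obtain ⟨U, hU, hh⟩ := exists_units H
  set A : Matrix (Fin n) (Fin n) (MvPowerSeries (Fin n) ℂ) := fun j r =>
    (∏ t, U t) * pderiv ℂ j (η r) + C ((((∑ t, a t * N t : ℕ) : ℂ))⁻¹) *
      lgD (pderiv ℂ j) Finset.univ a U * (C (w r : ℂ) * η r) with hA
  have h2 : ∀ j, (lg h a j : MvPowerSeries (Fin n) ℂ) =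
      ∑ r, A j r * MvPolynomial.aeval η (lg g a r) := by
    intro j
    rw [coe_lg]
    have h3 : (fun t => (h t : MvPowerSeries (Fin n) ℂ)) =
        fun t => U t * MvPolynomial.aeval η (g t) := funext hh
    rw [h3, lgD_unit, lgD_aeval, ← map_prod, euler_eta H h0 h1 a ha hn, Finset.mul_sum,
      Finset.mul_sum, Finset.sum_mul, ← Finset.sum_add_distrib]
    refine Finset.sum_congr rfl fun r _ => ?_
    simp only [hA]
    ring
  obtain ⟨B, hB1, hB2⟩ := exists_inv A (by
    have h3 : (Matrix.of fun i j => constantCoeff (A i j)) =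
        (constantCoeff (∏ t, U t)) • Matrix.of fun t r => constantCoeff (pderiv ℂ t (η r)) := by
      ext1 i j
      rw [Matrix.of_apply, Matrix.smul_apply, Matrix.of_apply]
      simp only [hA]
      rw [map_add, map_mul, map_mul, map_mul, map_mul, H.cc, mul_zero, mul_zero, add_zero,
        smul_eq_mul]
    rw [h3, Matrix.det_smul]
    refine mul_ne_zero (pow_ne_zero _ ?_) (G.det_pd H.whg h0 h1)
    rw [map_prod]
    exact Finset.prod_ne_zero_iff.2 fun t _ => hU t)
  refine ⟨B, fun r => ?_⟩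
  have h3 : ∀ t, B r t * (lg h a t : MvPowerSeries (Fin n) ℂ) =
      ∑ s, B r t * A t s * MvPolynomial.aeval η (lg g a s) := by
    intro t
    rw [h2 t, Finset.mul_sum]
    exact Finset.sum_congr rfl fun s _ => by ring
  rw [Finset.sum_congr rfl fun t _ => h3 t, Finset.sum_comm]
  have h4 : ∀ s, ∑ t, B r t * A t s * MvPolynomial.aeval η (lg g a s) =
      if r = s then MvPolynomial.aeval η (lg g a s) else 0 := by
    intro s
    rw [← Finset.sum_mul]
    have h5 : ∑ t, B r t * A t s = (B * A) r s := rfl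
    rw [h5, hB2, Matrix.one_apply]
    split_ifs
    · rw [one_mul]
    · rw [zero_mul]
  rw [Finset.sum_congr rfl fun s _ => h4 s, Finset.sum_ite_eq, if_pos (Finset.mem_univ r)]

include H h0 h1 ha in
/-- **The local Euler relation.** -/
theorem exists_euler' (hn : 0 < n) : ∃ (u : MvPolynomial (Fin n) ℂ)
    (b : Fin n → MvPolynomial (Fin n) ℂ), MvPolynomial.constantCoeff u ≠ 0 ∧
    (∀ t, MvPolynomial.constantCoeff (b t) = 0) ∧ u * (∏ t, h t) = ∑ t, b t * lg h a t := by
  obtain ⟨U, hU, hh⟩ := G.exists_unit H.whg h0 h1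
  obtain ⟨B, hB⟩ := exists_B' H h0 h1 a ha hn
  set c : ℂ := (((∑ t, a t * N t : ℕ) : ℂ))⁻¹ with hc
  choose q hq using fun r => exists_X (η r) (H.cc r)
  have h2 : ((∏ t, h t : MvPolynomial (Fin n) ℂ) : MvPowerSeries (Fin n) ℂ) =
      ∑ x : Fin n × Fin n,
      (∑ r, U * C c * C (w r : ℂ) * B r x.1 * q r x.2) *
        ((MvPolynomial.X x.2 * lg h a x.1 : MvPolynomial (Fin n) ℂ) :
          MvPowerSeries (Fin n) ℂ) := by
    conv_lhs => rw [hh, euler_eta H h0 h1 a ha hn]
    rw [Fintype.sum_prod_type, Finset.mul_sum, Finset.mul_sum]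
    have h4 : ∀ t : Fin n, ∑ j : Fin n, (∑ r, U * C c * C (w r : ℂ) * B r t * q r j) *
        ((MvPolynomial.X j * lg h a t : MvPolynomial (Fin n) ℂ) :
          MvPowerSeries (Fin n) ℂ) = ∑ r, U * C c * C (w r : ℂ) * B r t * η r *
          (lg h a t : MvPowerSeries (Fin n) ℂ) := by
      intro t
      simp only [Finset.sum_mul]
      rw [Finset.sum_comm]
      refine Finset.sum_congr rfl fun r _ => ?_
      conv_rhs => rw [hq r, Finset.mul_sum, Finset.sum_mul]
      refine Finset.sum_congr rfl fun j _ => ?_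
      rw [MvPolynomial.coe_mul, MvPolynomial.coe_X]
      ring
    rw [Finset.sum_congr rfl fun t _ => h4 t, Finset.sum_comm]
    refine Finset.sum_congr rfl fun r _ => ?_
    rw [hB r, Finset.mul_sum, Finset.mul_sum, Finset.mul_sum]
    refine Finset.sum_congr rfl fun t _ => ?_
    ring
  obtain ⟨u, b, hu, hb⟩ := Pool.Agent.Y229.flatInf (S := Unit) (L := Fin n × Fin n)
    (fun _ => ∏ t, h t)
    (fun x _ => MvPolynomial.X x.2 * lg h a x.1) _ fun _ => h2
  refine ⟨u, fun t => ∑ j, b (t, j) * MvPolynomial.X j, hu, fun t => ?_, ?_⟩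
  · rw [map_sum]
    exact Finset.sum_eq_zero fun j _ => by
      rw [map_mul, MvPolynomial.constantCoeff_X, mul_zero]
  · have h3 := hb ()
    rw [h3, Fintype.sum_prod_type]
    refine Finset.sum_congr rfl fun t _ => ?_
    rw [Finset.sum_mul]
    exact Finset.sum_congr rfl fun j _ => by ring

include H h0 h1 ha in
/-- **Powers of the coordinates in the ideal of the logarithmic gradient.** -/
theorem exists_pow' (hn : 0 < n) : ∃ (L : ℕ) (u : MvPolynomial (Fin n) ℂ),
    MvPolynomial.constantCoeff u ≠ 0 ∧ ∀ i, u * MvPolynomial.X i ^ L ∈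
      Ideal.span (Set.range fun t => lg h a t) := by
  classical
  obtain ⟨B, hB⟩ := exists_B' H h0 h1 a ha hn
  obtain ⟨M, hM⟩ := lg_pow_mem H h0 h1 a ha hn
  set J : Ideal (MvPowerSeries (Fin n) ℂ) :=
    Ideal.span (Set.range fun t => (lg h a t : MvPowerSeries (Fin n) ℂ)) with hJ
  have hgJ : ∀ r, MvPolynomial.aeval η (lg g a r) ∈ J := by
    intro r
    rw [hB r]
    exact Ideal.sum_mem _ fun t _ => Ideal.mul_mem_left _ _ (Ideal.subset_span ⟨t, rfl⟩)
  have hηJ : ∀ r, η r ∈ J.radical := by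
    intro r
    refine ⟨M, ?_⟩
    obtain ⟨c, hc⟩ := (Ideal.mem_span_range_iff_exists_fun (R := MvPolynomial (Fin n) ℂ)).1 (hM r)
    have h2 := congrArg (MvPolynomial.aeval η) hc
    rw [map_pow, MvPolynomial.aeval_X, map_sum] at h2
    rw [← h2]
    refine Ideal.sum_mem _ fun s _ => ?_
    rw [map_mul]
    exact Ideal.mul_mem_left _ _ (hgJ s)
  -- the coordinates in terms of the `η r`
  choose q hq using fun r => exists_X (η r) (H.cc r)
  obtain ⟨E, hE1, hE2⟩ := exists_inv (Matrix.of q) (by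
    have h2 : (Matrix.of fun i j => constantCoeff ((Matrix.of q) i j)) =
        (Matrix.of fun u t => coeff (Finsupp.single u 1) (η t)).transpose := by
      ext1 r j
      rw [Matrix.of_apply, Matrix.transpose_apply, Matrix.of_apply, Matrix.of_apply]
      conv_rhs => rw [hq r, map_sum]
      rw [Finset.sum_eq_single j]
      · rw [X_def, coeff_mul_monomial, if_pos le_rfl, tsub_self, mul_one,
          coeff_zero_eq_constantCoeff_apply]
      · intro i _ hi
        rw [X_def, coeff_mul_monomial, if_neg]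
        intro h3
        rw [Finsupp.single_le_iff, Finsupp.single_eq_of_ne hi] at h3
        omega
      · intro h3
        exact absurd (Finset.mem_univ _) h3
    rw [h2, Matrix.det_transpose]
    exact H.det)
  have hXJ : ∀ i, (X i : MvPowerSeries (Fin n) ℂ) ∈ J.radical := by
    intro i
    have h2 : (X i : MvPowerSeries (Fin n) ℂ) = ∑ r, E i r * η r := by
      have h3 : ∀ r, E i r * η r = ∑ j, E i r * (Matrix.of q) r j * X j := by
        intro r
        conv_lhs => rw [hq r, Finset.mul_sum]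
        refine Finset.sum_congr rfl fun j _ => ?_
        rw [Matrix.of_apply]
        ring
      rw [Finset.sum_congr rfl fun r _ => h3 r, Finset.sum_comm]
      have h4 : ∀ j, ∑ r, E i r * (Matrix.of q) r j * X j =
          if i = j then (X j : MvPowerSeries (Fin n) ℂ) else 0 := by
        intro j
        rw [← Finset.sum_mul]
        have h5 : ∑ r, E i r * (Matrix.of q) r j = (E * Matrix.of q) i j := rfl
        rw [h5, hE2, Matrix.one_apply]
        split_ifs
        · rw [one_mul]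
        · rw [zero_mul]
      rw [Finset.sum_congr rfl fun j _ => h4 j, Finset.sum_ite_eq, if_pos (Finset.mem_univ i)]
    rw [h2]
    exact Ideal.sum_mem _ fun r _ => Ideal.mul_mem_left _ _ (hηJ r)
  choose L hL using hXJ
  have h2 : ∀ i, ∃ u : MvPolynomial (Fin n) ℂ, MvPolynomial.constantCoeff u ≠ 0 ∧
      u * MvPolynomial.X i ^ L i ∈ Ideal.span (Set.range fun t => lg h a t) := by
    intro i
    obtain ⟨c, hc⟩ := (Ideal.mem_span_range_iff_exists_fun (R := MvPowerSeries (Fin n) ℂ)).1 (hL i)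
    obtain ⟨u, c', hu, hc'⟩ := Pool.Agent.Y229.flatInf (S := Unit) (L := Fin n)
      (fun _ => MvPolynomial.X i ^ L i) (fun t _ => lg h a t) c fun _ => by
        rw [MvPolynomial.coe_pow, MvPolynomial.coe_X, ← hc]
    refine ⟨u, hu, ?_⟩
    rw [hc' ()]
    exact Ideal.sum_mem _ fun t _ => Ideal.mul_mem_left _ _ (Ideal.subset_span ⟨t, rfl⟩)
  choose u hu1 hu2 using h2
  refine ⟨∑ i, L i, ∏ i, u i, ?_, fun i => ?_⟩
  · rw [map_prod]
    exact Finset.prod_ne_zero_iff.2 fun i _ => hu1 i
  · refine Ideal.mem_of_dvd _ (mul_dvd_mul (Finset.dvd_prod_of_mem u (Finset.mem_univ i))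
      (pow_dvd_pow _ (Finset.single_le_sum (fun i _ => Nat.zero_le (L i))
        (Finset.mem_univ i)))) (hu2 i)

end

end Pool.Agent.H940.P
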