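import Pool.Agent.H940.P.Main
import Pool.Agent.H940.R.Final
import Pool.Graph.R_pool_sql_team_seeded_3997aac3.Q57.QP.All0

set_option autoImplicit false
set_option linter.unusedSectionVars false
set_option linter.unusedVariables false
set_option maxHeartbeats 1000000

/-! # The p-adic zeta functions of products of powers of ternary forms -/

namespace Pool.Agent.H940.P

open MeasureTheory MvPolynomial Topology
open Pool.Agent.H940.R
open Pool.Agent.W427.SMC Pool.Agent.Y230.PS Pool.Agent.Q57.QP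
open Pool.Agent.Y230.PT hiding CO
open Pool.Agent.Q66.QP
open Pool.Agent.Y229 (SF sf_of_local exists_fe)
open Pool.Agent.W574.LM (IsLocEq)
open Pool.Agent.Q57.MC (sf_forced eq_of_locEq1)
open Pool.Agent.H940.LT (eval_homog euler_hom root_or_field')
open Pool.Agent.H940.G (germAt)
open scoped ENNReal

attribute [local instance] msK bsK msZ bsZ

section field

variable {n T : ℕ} {F : Fin T → MvPolynomial (Fin (n + 1)) ℂ} {d : Fin T → ℕ}
  (hd : ∀ t, 1 ≤ d t)
  (hd2 : 2 ≤ ∑ t, d t) (hF : ∀ t, (F t).IsHomogeneous (d t)) (hF0 : ∀ t, F t ≠ 0)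
  (H : LHT F) (a : Fin T → ℕ) (ha : ∀ t, 1 ≤ a t)
include hd hd2 hF hF0 ha H

/-- **The root of the vertex, or a vector field.** -/
theorem sf_or_field' : SF (fun _ : Fin 1 => ∏ t, F t ^ a t) 0
      (-((n + 1 : ℕ) : ℂ) / (∑ t, a t * d t : ℕ)) ∨
    ∃ η : Fin (n + 1) → MvPolynomial (Fin (n + 1)) ℂ,
      ∑ i, η i * pderiv i (∏ t, F t ^ a t) = 0 ∧
      constantCoeff (Pool.Agent.H940.LT.dv η) ≠ 0 := by
  classical
  set f := ∏ t, F t ^ a t with hfdef
  set N := ∑ t, a t * d t with hN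
  have hf : f.IsHomogeneous N := pow_hom F a d hF
  have hf0 : f ≠ 0 := Finset.prod_ne_zero_iff.2 fun t _ => pow_ne_zero _ (hF0 t)
  have hg0 : ∏ t, F t ≠ 0 := Finset.prod_ne_zero_iff.2 fun t _ => hF0 t
  have hN0 : (N : ℂ) ≠ 0 := na_ne hd hd2 hF hF0 a ha
  have hN1 : 1 ≤ N := by
    have : N ≠ 0 := by exact_mod_cast hN0
    omega
  rw [or_iff_not_imp_left]
  intro hSF
  obtain ⟨H', b, hb, hH', hbα⟩ : ∃ (H' : MvPolynomial (Fin (n + 1)) ℂ) (b : Polynomial ℂ),
      IsLocEq H' (fun _ : Fin 1 => f) b ∧ eval 0 H' ≠ 0 ∧ b.eval (-((n + 1 : ℕ) : ℂ) / N) ≠ 0 := by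
    by_contra hc
    push Not at hc
    exact hSF (sf_of_local _ _ _ (fun H' b hb hH => hc H' b hb hH) (exists_fe _ ⟨0, hf0⟩))
  obtain ⟨P, hP⟩ := eq_of_locEq1 H' _ b hb
  have hc0 : constantCoeff f = 0 := by
    have h2 := eval_homog f N hf 0 0
    rw [zero_pow (by omega), zero_mul, zero_smul, eval_zero] at h2
    exact h2
  have hdv : constantCoeff (Pool.Agent.H940.LT.dv fun i : Fin (n + 1) =>
      (X i : MvPolynomial (Fin (n + 1)) ℂ)) =
      ((n + 1 : ℕ) : ℂ) := by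
    unfold Pool.Agent.H940.LT.dv
    rw [map_sum]
    simp only [pderiv_X_self, map_one]
    rw [Finset.sum_const, Finset.card_univ, Fintype.card_fin, nsmul_eq_mul, mul_one]
  rcases root_or_field' f (∏ t, F t) (lg F a) (fun i => lg_mul F a i) hf0 hg0 hc0
    (lty' hd hd2 hF hF0 H a ha) (fun i => X i) N hN0 (euler_hom f N hf)
    (fun i => by rw [constantCoeff_X]) H' (by rwa [eval_zero] at hH') b P hP with h1 | ⟨η, h1, h2⟩
  · rw [hdv] at h1
    exact absurd h1 hbα
  · exact ⟨η, Pool.Agent.H940.LT.kill_of f (∏ t, F t) (lg F a) (fun i => lg_mul F a i) hg0 η h1,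
      h2⟩

end field

variable {p : ℕ} [Fact p.Prime]

/-- **The vertex.** -/
theorem lp_zero_of {n : ℕ} (f : MvPolynomial (Fin (n + 1)) ℚ) (d : ℕ) (hd : 1 ≤ d)
    (hf : f.IsHomogeneous d) (m : ℂ → ℕ∞)
    (hor : (∀ T : ℂ, 1 < ‖T‖ → T ^ d = (p : ℂ) ^ (n + 1) → m T = ⊤) ∨
      ∃ η : Fin (n + 1) → MvPolynomial (Fin (n + 1)) ℂ,
        ∑ i, η i * pderiv i (map (algebraMap ℚ ℂ) f) = 0 ∧
        constantCoeff (Pool.Agent.H940.LT.dv η) ≠ 0)
    (hne : ∀ P : Fin (n + 1) → ℚ_[p], P ≠ 0 →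
      LP m (fun x => ‖eval x (map (algebraMap ℚ ℚ_[p]) f)‖) P) :
    LP m (fun x => ‖eval x (map (algebraMap ℚ ℚ_[p]) f)‖) 0 := by
  classical
  set fp := map (algebraMap ℚ ℚ_[p]) f with hfp
  have hfh : fp.IsHomogeneous d := hf.map _
  rcases hor with h1 | ⟨η, h1, h2⟩
  · exact lp_vertex fp d (by omega) hfh _ h1 hne
  · obtain ⟨A, B, w, hAB, hBA, hw, hgh, hgw⟩ := second_rat f d (by omega) hf η h1 h2
    have hBp : (B.map (algebraMap ℚ ℚ_[p])) * (A.map (algebraMap ℚ ℚ_[p])) = 1 := by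
      rw [← Matrix.map_mul, hBA, Matrix.map_one _ (map_zero _) (map_one _)]
    have hAp : (A.map (algebraMap ℚ ℚ_[p])) * (B.map (algebraMap ℚ ℚ_[p])) = 1 := by
      rw [← Matrix.map_mul, hAB, Matrix.map_one _ (map_zero _) (map_one _)]
    set L : (Fin (n + 1) → ℚ_[p]) ≃L[ℚ_[p]] (Fin (n + 1) → ℚ_[p]) :=
      (Matrix.toLin'OfInv hAp hBp).toContinuousLinearEquiv with hL
    have hLa : ∀ x, L x = (B.map (algebraMap ℚ ℚ_[p])).mulVec x := by
      intro x
      rfl
    refine lp_second fp (map (algebraMap ℚ ℚ_[p]) (LK.sb B f)) d (by omega) (hgh.map _) L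
      (fun x => ?_) w hw (fun α hα => hgw α (support_map_subset _ _ hα)) _ hne
    congr 1
    rw [hLa, hfp, eval_map, eval_map]
    unfold LK.sb
    rw [← coe_eval₂Hom, ← coe_eval₂Hom]
    have h3 : ((eval₂Hom (algebraMap ℚ ℚ_[p]) x).comp
        (aeval fun i => LK.lf (B i) : MvPolynomial (Fin (n + 1)) ℚ →ₐ[ℚ] _).toRingHom) =
        eval₂Hom (algebraMap ℚ ℚ_[p]) ((B.map (algebraMap ℚ ℚ_[p])).mulVec x) := by
      apply MvPolynomial.ringHom_ext
      · intro a
        simp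
      · intro i
        rw [RingHom.comp_apply, eval₂Hom_X']
        simp only [AlgHom.toRingHom_eq_coe, RingHom.coe_coe, aeval_X]
        rw [LK.lf_apply, map_sum]
        unfold Matrix.mulVec dotProduct
        refine Finset.sum_congr rfl fun j _ => ?_
        rw [map_mul, eval₂Hom_C, eval₂Hom_X']
        simp only [Matrix.map_apply]
    exact RingHom.congr_fun h3 f

section ternary

variable {T : ℕ} {F : Fin T → MvPolynomial (Fin 3) ℂ} {d : Fin T → ℕ}
  (hd : ∀ t, 1 ≤ d t)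
  (hd2 : 2 ≤ ∑ t, d t) (hF : ∀ t, (F t).IsHomogeneous (d t)) (hF0 : ∀ t, F t ≠ 0)
  (H : LHT (n := 2) F) (a : Fin T → ℕ) (ha : ∀ t, 1 ≤ a t)
include hd hd2 hF hF0 ha H

/-- **The integrals near all points.** -/
theorem tp_LP (f : MvPolynomial (Fin 3) ℚ) (hf : f.IsHomogeneous (∑ t, a t * d t))
    (hfF : map (algebraMap ℚ ℂ) f = ∏ t, F t ^ a t) (P : Fin 3 → ℚ_[p]) :
    LP (mF p (map (algebraMap ℚ ℂ) f)) (fun x => ‖eval x (map (algebraMap ℚ ℚ_[p]) f)‖) P := by
  classical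
  obtain ⟨φ⟩ := exists_emb p
  set N := ∑ t, a t * d t with hN
  have hN0 : (N : ℂ) ≠ 0 := na_ne hd hd2 hF hF0 a ha
  have hN1 : 1 ≤ N := by
    have : N ≠ 0 := by exact_mod_cast hN0
    omega
  set G := map (algebraMap ℚ ℂ) f with hG
  set fp := map (algebraMap ℚ ℚ_[p]) f with hfp
  have hφ : map φ fp = G := map_C_eq φ f
  have hGh : G.IsHomogeneous N := hf.map _
  have hfh : fp.IsHomogeneous N := hf.map _
  have hG0 : G ≠ 0 := by
    rw [hfF]
    exact Finset.prod_ne_zero_iff.2 fun t _ => pow_ne_zero _ (hF0 t)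
  have hne : ∀ P : Fin 3 → ℚ_[p], P ≠ 0 → LP (mF p G) (fun x => ‖eval x fp‖) P := by
    intro P hP
    obtain ⟨i, hi⟩ : ∃ i, P i ≠ 0 := by
      by_contra hcon
      push Not at hcon
      exact hP (funext hcon)
    set q : Fin 2 → ℚ_[p] := fun t => P (i.succAbove t) / P i with hq
    refine lp_chart (n := 2) fp N hfh i P hi _ ?_
    have hmap : map φ (germ i q fp) = germAt i (fun t => φ (q t)) G := by
      rw [map_germ, hφ]
      rfl
    have hg0 : germAt i (fun t => φ (q t)) G ≠ 0 := germ_ne G N hGh hG0 _ _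
    have hg1 : germ i q fp ≠ 0 := by
      intro h0
      rw [h0, map_zero] at hmap
      exact hg0 hmap.symm
    have h1 := st_plane p φ (fun _ : Fin 1 => germ i q fp) ⟨0, hg1⟩ 0
    have h2 : nrm (fun _ : Fin 1 => germ i q fp) = fun y => ‖eval y (germ i q fp)‖ := by
      funext x
      unfold nrm
      rw [pi_norm_const]
    unfold LPF at h1
    rw [h2] at h1
    refine lp_mono (fun T0 _ => ?_) h1
    unfold mS
    split_ifs with h5
    · rw [mF_top]
      refine sf_of_germ G N hGh i (fun t => φ (q t)) hg0 _ ?_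
      have h6 : (fun i : Fin 2 => φ ((0 : Fin 2 → ℚ_[p]) i)) = 0 := by
        funext i
        simp
      rw [h6] at h5
      simp only [hmap] at h5
      exact h5
    · exact bot_le
  by_cases hP : P = 0
  swap
  · exact hne P hP
  subst hP
  refine lp_zero_of f N hN1 hf _ ?_ hne
  rcases sf_or_field' (n := 2) hd hd2 hF hF0 H a ha with h1 | ⟨η, h1, h2⟩
  · left
    intro T0 hT0 hTd
    apply mF_top
    rw [rr_ratio _ _ (by norm_num : 0 < 3) (by omega : 0 < N) T0 hTd, hfF]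
    exact h1
  · right
    rw [← hfF] at h1
    exact ⟨η, h1, h2⟩

/-- **The real parts of the poles are roots.** -/
theorem tp_ZR (f : MvPolynomial (Fin 3) ℚ) (hf : f.IsHomogeneous (∑ t, a t * d t))
    (hfF : map (algebraMap ℚ ℂ) f = ∏ t, F t ^ a t) :
    Pool.Agent.T6.H26.ZR p false (hyp f) := by
  classical
  have hf0 : f ≠ 0 := by
    intro h0
    rw [h0, map_zero] at hfF
    exact Finset.prod_ne_zero_iff.2 (fun t _ => pow_ne_zero _ (hF0 t)) hfF.symm
  refine ⟨⟨(0 : Fin 1), hf0⟩, ?_⟩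
  simp only [Bool.false_eq_true, if_false]
  have h1 := st_ff p (FamQ.toP p (hyp f)) (mR p (hyp f)) (fun P => ?_) (fun _ => 1)
    (fun _ => one_ne_zero)
  · rw [scl_one] at h1
    exact h1
  · have h2 := tp_LP hd hd2 hF hF0 H a ha f hf hfF P
    have h3 : nrm (FamQ.toP p (hyp f)) = fun x => ‖eval x (map (algebraMap ℚ ℚ_[p]) f)‖ := by
      funext x
      unfold nrm
      have h4 : (fun j => eval x (FamQ.toP p (hyp f) j)) =
          fun _ : Fin 1 => eval x (map (algebraMap ℚ ℚ_[p]) f) := rfl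
      rw [h4, pi_norm_const]
    rw [h3]
    refine lp_mono (fun T _ => ?_) h2
    unfold mF
    split_ifs with h5
    · rw [mR_top (sf_forced h5)]
    · exact bot_le

end ternary

end Pool.Agent.H940.P
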