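import Pool.Agent.H940.P.Bdd
import Pool.Graph.R_pool_sql_team_seeded_3997aac3.Q57.QM.All

set_option autoImplicit false
set_option linter.unusedSectionVars false
set_option linter.unusedVariables false

/-! # The roots `-1 / a_t` -/

namespace Pool.Agent.H940.P

open MvPolynomial Pool.Agent.W428.MOT Pool.Agent.TH192.MT Pool.Agent.TH192.DT Pool.Agent.Q49.CO
open Pool.Agent.Q57.QM Pool.Agent.Y229 Pool.Agent.Q57.MC Pool.Agent.Q57.MD
open Pool.Agent.H940.Z Pool.Agent.H940.G
open Pool.Agent.H940.LT (eval_homog euler_hom exists_hyp')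

/-- powers of a variable -/
theorem sf_pow (m : ℕ) (hm : 1 ≤ m) :
    SF (fun _ : Fin 1 => (X 0 ^ m : MvPolynomial (Fin 1) ℂ)) 0 (-1 / (m : ℂ)) := by
  classical
  have h : IsForm (Finset.univ : Finset (Fin 1)) m
      (fun _ : Fin 1 => (X 0 ^ m : MvPolynomial (Fin 1) ℂ)) := by
    refine ⟨⟨0, Finset.mem_univ _⟩, hm, fun _ => ?_, Or.inl ?_⟩
    · have h1 := (isHomogeneous_X ℂ (0 : Fin 1)).pow m
      rw [one_mul] at h1
      have h2 : (fun i : Fin 1 => if i ∈ (Finset.univ : Finset (Fin 1)) then 1 else 0) =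
          (1 : Fin 1 → ℕ) := by
        funext i
        rw [if_pos (Finset.mem_univ _)]
        rfl
      rw [h2]
      exact h1
    · refine ⟨fun _ => 0, ?_⟩
      have h3 : (Matrix.of fun s t : (Finset.univ : Finset (Fin 1)) =>
          pderiv (s : Fin 1) ((fun _ : Fin 1 => (X 0 ^ m : MvPolynomial (Fin 1) ℂ)) 0)).det =
          pderiv 0 (X 0 ^ m : MvPolynomial (Fin 1) ℂ) := by
        let iu : Unique (Finset.univ : Finset (Fin 1)) :=
          ⟨⟨⟨0, Finset.mem_univ _⟩⟩, fun a => Subtype.ext (Subsingleton.elim _ _)⟩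
        rw [Matrix.det_unique, Matrix.of_apply]
        exact congrArg (fun i : Fin 1 => pderiv i (X 0 ^ m : MvPolynomial (Fin 1) ℂ))
          (Subsingleton.elim _ _)
      rw [h3, pderiv_pow, pderiv_X_self, mul_one]
      refine mul_ne_zero ?_ (pow_ne_zero _ (X_ne_zero _))
      exact Nat.cast_ne_zero.2 (by omega)
  have h2 := form_sf h
  rw [Finset.card_univ, Fintype.card_fin, Nat.cast_one] at h2
  exact h2

variable {n T : ℕ}

/-- products of a power of a coordinate and a unit -/
theorem sf_mult_germ (h : Fin T → MvPolynomial (Fin n) ℂ) (a : Fin T → ℕ) (t : Fin T)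
    (ha : 1 ≤ a t) (h0 : constantCoeff (h t) = 0) (j : Fin n)
    (hj : constantCoeff (pderiv j (h t)) ≠ 0) (hs : ∀ s, s ≠ t → constantCoeff (h s) ≠ 0) :
    SF (fun _ : Fin 1 => ∏ s, h s ^ a s) 0 (-1 / (a t : ℂ)) := by
  classical
  set g : Fin 1 → MvPowerSeries (Fin n) ℂ := fun _ => (h t : MvPowerSeries (Fin n) ℂ) with hg
  have hT : Transf (fun _ : Fin 1 => ∏ s, h s ^ a s)
      (fun _ : Fin 1 => (X 0 ^ a t : MvPolynomial (Fin 1) ℂ)) 0 := by
    refine transfer_formal _ _ g (fun _ => j) (fun _ => ?_) ?_ ?_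
    · rw [hg, ← MvPowerSeries.coeff_zero_eq_constantCoeff_apply, MvPolynomial.coeff_coe]
      exact h0
    · rw [Matrix.det_unique, Matrix.of_apply]
      change MvPowerSeries.coeff (Finsupp.single j 1) (h t : MvPowerSeries (Fin n) ℂ) ≠ 0
      rw [MvPolynomial.coeff_coe]
      have h1 : constantCoeff (pderiv j (h t)) = coeff (Finsupp.single j 1) (h t) := by
        change coeff 0 (pderiv j (h t)) = _
        rw [coeff_pderiv]
        simp
      rwa [← h1]
    · rw [Set.range_const, Set.range_const]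
      have h1 : (((∏ s, h s ^ a s : MvPolynomial (Fin n) ℂ)) : MvPowerSeries (Fin n) ℂ) =
          ((∏ s ∈ Finset.univ.erase t, h s ^ a s : MvPolynomial (Fin n) ℂ) :
            MvPowerSeries (Fin n) ℂ) * (h t : MvPowerSeries (Fin n) ℂ) ^ a t := by
        rw [← Finset.mul_prod_erase Finset.univ (fun s => h s ^ a s) (Finset.mem_univ t),
          MvPolynomial.coe_mul, MvPolynomial.coe_pow, mul_comm]
      have h2 : aeval g (X 0 ^ a t : MvPolynomial (Fin 1) ℂ) =
          (h t : MvPowerSeries (Fin n) ℂ) ^ a t := by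
        rw [map_pow, aeval_X]
      rw [h1, h2]
      refine Ideal.span_singleton_mul_left_unit ?_ _
      rw [MvPowerSeries.isUnit_iff_constantCoeff, ← MvPowerSeries.coeff_zero_eq_constantCoeff_apply,
        MvPolynomial.coeff_coe]
      change IsUnit (constantCoeff (∏ s ∈ Finset.univ.erase t, h s ^ a s))
      rw [isUnit_iff_ne_zero, map_prod]
      refine Finset.prod_ne_zero_iff.2 fun s hs' => ?_
      rw [map_pow]
      exact pow_ne_zero _ (hs s (Finset.ne_of_mem_erase hs'))
  have hne : ∃ k : Fin 1, (fun _ : Fin 1 => (X 0 ^ a t : MvPolynomial (Fin 1) ℂ)) k ≠ 0 :=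
    ⟨0, pow_ne_zero _ (X_ne_zero _)⟩
  exact sf_of_transf _ _ 0 hT hne _ ((sf_iff _ hne _).1 (sf_pow (a t) ha))

/-- from the germs to the form -/
theorem sf_of_germ (f : MvPolynomial (Fin (n + 1)) ℂ) (d : ℕ) (hf : f.IsHomogeneous d)
    (i : Fin (n + 1)) (q : Fin n → ℂ) (hne : germAt i q f ≠ 0) (α : ℂ)
    (h : SF (fun _ : Fin 1 => germAt i q f) 0 α) : SF (fun _ : Fin 1 => f) 0 α := by
  classical
  set p : Fin (n + 1) → ℂ := i.insertNth 1 q with hp
  have hpi : p i = 1 := by rw [hp, Fin.insertNth_apply_same]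
  have hpt : ∀ t, p (i.succAbove t) = q t := by
    intro t
    rw [hp, Fin.insertNth_apply_succAbove]
  have hne' : ∃ k : Fin 1, (fun _ : Fin 1 => germAt i q f) k ≠ 0 := ⟨0, hne⟩
  refine sf_cone_pts (T := Finset.univ) (fun _ : Fin 1 => f) d (fun _ => ?_)
    (fun _ : Fin 1 => germAt i q f) p
    (transfer_chart (fun _ : Fin 1 => f) (fun _ : Fin 1 => germAt i q f) (an i q)
      (fun t => i.succAbove t) (X i) p ?_ (same_germ f d hf i q) ?_ ?_) ?_ hne' _
      ((sf_iff _ hne' _).1 h)
  · unfold HT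
    have h1 : (fun j : Fin (n + 1) => if j ∈ (Finset.univ : Finset (Fin (n + 1))) then 1 else 0) =
        (1 : Fin (n + 1) → ℕ) := by
      funext j
      rw [if_pos (Finset.mem_univ j)]
      rfl
    rw [h1]
    exact hf
  · rw [eval_X, hpi]
    exact one_ne_zero
  · intro t
    have h1 := aeval_an i q t p
    rw [hpt, hpi] at h1
    change aeval p (an i q t) = 0
    rw [h1]
    change q t - q t * 1 = 0
    ring
  · have h1 : (Matrix.of fun u t => eval p (pderiv (i.succAbove u) (an i q t))) =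
        (1 : Matrix (Fin n) (Fin n) ℂ) := by
      ext1 u t
      rw [Matrix.of_apply, pderiv_an, Matrix.one_apply]
      split_ifs
      · rw [map_one]
      · rw [map_zero]
    rw [h1, Matrix.det_one]
    exact one_ne_zero
  · intro j hj
    exact absurd (Finset.mem_univ j) hj

/-- a zero of a form in a plane -/
theorem exists_zero (f : MvPolynomial (Fin (n + 1)) ℂ) (d : ℕ) (hd : 1 ≤ d)
    (hf : f.IsHomogeneous d) (u w : Fin (n + 1) → ℂ) :
    ∃ x y : ℂ, (x ≠ 0 ∨ y ≠ 0) ∧ eval (fun j => x * u j + y * w j) f = 0 := by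
  set P : Polynomial ℂ := aeval (fun j => Polynomial.C (u j) + Polynomial.X * Polynomial.C (w j)) f
    with hP
  set Q : Polynomial ℂ := aeval (fun j => Polynomial.X * Polynomial.C (u j) + Polynomial.C (w j)) f
    with hQ
  have hPe : ∀ y, P.eval y = eval (fun j => u j + y * w j) f := by
    intro y
    have h1 : ((Polynomial.evalRingHom y).comp ((aeval fun j => Polynomial.C (u j) +
        Polynomial.X * Polynomial.C (w j) : MvPolynomial (Fin (n + 1)) ℂ →ₐ[ℂ] Polynomial ℂ) :
          MvPolynomial (Fin (n + 1)) ℂ →+* Polynomial ℂ)) = eval fun j => u j + y * w j := by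
      refine MvPolynomial.ringHom_ext (fun r => ?_) fun t => ?_
      · simp
      · simp
        ring
    exact congrArg (fun φ : MvPolynomial (Fin (n + 1)) ℂ →+* ℂ => φ f) h1
  have hQe : ∀ y, Q.eval y = eval (fun j => y * u j + w j) f := by
    intro y
    have h1 : ((Polynomial.evalRingHom y).comp ((aeval fun j => Polynomial.X * Polynomial.C (u j) +
        Polynomial.C (w j) : MvPolynomial (Fin (n + 1)) ℂ →ₐ[ℂ] Polynomial ℂ) :
          MvPolynomial (Fin (n + 1)) ℂ →+* Polynomial ℂ)) = eval fun j => y * u j + w j := by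
      refine MvPolynomial.ringHom_ext (fun r => ?_) fun t => ?_
      · simp
      · simp
        ring
    exact congrArg (fun φ : MvPolynomial (Fin (n + 1)) ℂ →+* ℂ => φ f) h1
  by_cases hroot : ∃ y, P.eval y = 0
  · obtain ⟨y, hy⟩ := hroot
    refine ⟨1, y, Or.inl one_ne_zero, ?_⟩
    rw [hPe] at hy
    rw [← hy]
    congr 1
    congr 1
    funext j
    rw [one_mul]
  · push Not at hroot
    have h1 : P.degree = 0 := by
      by_contra hc
      obtain ⟨y, hy⟩ := IsAlgClosed.exists_root P hc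
      exact hroot y hy
    have h2 : P = Polynomial.C (P.coeff 0) := Polynomial.eq_C_of_degree_eq_zero h1
    set c := P.coeff 0 with hc
    have h3 : Q = Polynomial.C c * Polynomial.X ^ d := by
      refine Polynomial.eq_of_infinite_eval_eq _ _ ?_
      refine Set.Infinite.mono (s := {y : ℂ | y ≠ 0}) ?_ ?_
      · intro y hy
        have hy' : y ≠ 0 := hy
        change Q.eval y = (Polynomial.C c * Polynomial.X ^ d).eval y
        rw [hQe, Polynomial.eval_mul, Polynomial.eval_C, Polynomial.eval_pow, Polynomial.eval_X]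
        have h4 : (fun j => y * u j + w j) = y • fun j => u j + y⁻¹ * w j := by
          funext j
          rw [Pi.smul_apply, smul_eq_mul]
          field_simp
        rw [h4, eval_homog f d hf, ← hPe, h2, Polynomial.eval_C, mul_comm]
      · exact (Set.finite_singleton (0 : ℂ)).infinite_compl
    refine ⟨0, 1, Or.inr one_ne_zero, ?_⟩
    have h4 := hQe 0
    rw [h3, Polynomial.eval_mul, Polynomial.eval_pow, Polynomial.eval_X, zero_pow (by omega),
      mul_zero] at h4
    have h5 : (fun j => (0 : ℂ) * u j + 1 * w j) = fun j => (0 : ℂ) * u j + w j := by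
      funext j
      rw [one_mul]
    rw [h5]
    exact h4.symm

section forms

variable {F : Fin T → MvPolynomial (Fin (n + 1)) ℂ} {d : Fin T → ℕ} (hn : 2 ≤ n)
  (hd : ∀ t, 1 ≤ d t)
  (hd2 : 2 ≤ ∑ t, d t) (hF : ∀ t, (F t).IsHomogeneous (d t)) (hF0 : ∀ t, F t ≠ 0)
  (H : LHT F) (a : Fin T → ℕ) (ha : ∀ t, 1 ≤ a t)
include hn hd hd2 hF hF0 ha H

/-- **The roots `-1 / a_t`.** -/
theorem sf_mult (t : Fin T) : SF (fun _ : Fin 1 => ∏ s, F s ^ a s) 0 (-1 / (a t : ℂ)) := by
  classical
  have hg0 : ∏ t, F t ≠ 0 := Finset.prod_ne_zero_iff.2 fun t _ => hF0 t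
  set S := (finite_lines' fun s hs => pow_line' hd hd2 hF hF0 H a ha hs).toFinset with hS
  obtain ⟨l, hl0, hlS, -⟩ := exists_hyp' (∏ t, F t) (lg F a) hg0 (S.image pt) (by
    intro p hp
    obtain ⟨s, _, rfl⟩ := Finset.mem_image.1 hp
    exact pt_ne s)
  -- two vectors in the hyperplane
  set i1 : Fin (n + 1) := ⟨1, by omega⟩ with hi1
  set i2 : Fin (n + 1) := ⟨2, by omega⟩ with hi2
  have h01 : (0 : Fin (n + 1)) ≠ i1 := fun h => by
    have := congrArg Fin.val h
    simp [hi1] at this
  have h02 : (0 : Fin (n + 1)) ≠ i2 := fun h => by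
    have := congrArg Fin.val h
    simp [hi2] at this
  have h12 : i1 ≠ i2 := fun h => by
    have := congrArg Fin.val h
    simp [hi1, hi2] at this
  set u : Fin (n + 1) → ℂ := Pi.single i1 (l 0) - Pi.single 0 (l i1) with hu
  set w : Fin (n + 1) → ℂ := Pi.single i2 (l 0) - Pi.single 0 (l i2) with hw
  obtain ⟨x, y, hxy, hz⟩ := exists_zero (F t) (d t) (hd t) (hF t) u w
  set q : Fin (n + 1) → ℂ := fun j => x * u j + y * w j with hq
  have hq0 : q ≠ 0 := by
    intro h0
    have h1 := congrFun h0 i1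
    have h2 := congrFun h0 i2
    simp only [hq, hu, hw, Pi.sub_apply, Pi.zero_apply] at h1 h2
    rw [Pi.single_eq_same, Pi.single_eq_of_ne h01.symm, Pi.single_eq_of_ne h12,
      Pi.single_eq_of_ne h01.symm] at h1
    rw [Pi.single_eq_same, Pi.single_eq_of_ne h02.symm, Pi.single_eq_of_ne h12.symm,
      Pi.single_eq_of_ne h02.symm] at h2
    simp only [sub_zero, mul_zero, add_zero, zero_add] at h1 h2
    rcases hxy with h3 | h3
    · exact (mul_ne_zero h3 hl0) h1
    · exact (mul_ne_zero h3 hl0) h2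
  have hlq : ∑ i, l i * q i = 0 := by
    have h1 : ∑ i, l i * u i = 0 := by
      simp only [hu, Pi.sub_apply, mul_sub, Finset.sum_sub_distrib]
      simp only [Pi.single_apply, mul_ite, mul_zero]
      rw [Finset.sum_ite_eq' Finset.univ i1, Finset.sum_ite_eq' Finset.univ (0 : Fin (n + 1)),
        if_pos (Finset.mem_univ _), if_pos (Finset.mem_univ _)]
      ring
    have h2 : ∑ i, l i * w i = 0 := by
      simp only [hw, Pi.sub_apply, mul_sub, Finset.sum_sub_distrib]
      simp only [Pi.single_apply, mul_ite, mul_zero]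
      rw [Finset.sum_ite_eq' Finset.univ i2, Finset.sum_ite_eq' Finset.univ (0 : Fin (n + 1)),
        if_pos (Finset.mem_univ _), if_pos (Finset.mem_univ _)]
      ring
    have h3 : ∑ i, l i * q i = x * ∑ i, l i * u i + y * ∑ i, l i * w i := by
      rw [Finset.mul_sum, Finset.mul_sum, ← Finset.sum_add_distrib]
      refine Finset.sum_congr rfl fun i _ => ?_
      simp only [hq]
      ring
    rw [h3, h1, h2]
    ring
  obtain ⟨s₀, hs1, hs2⟩ := exists_On q hq0
  set p := pt s₀ with hp
  have hc0 : q s₀.1 ≠ 0 := hs2.1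
  have hqp : q = q s₀.1 • p := hs2.eq
  -- `p` is not in a zero line
  have hzv : ¬ Zv (lg F a) p := by
    intro hzp
    have h1 : p ∈ S.image pt :=
      Finset.mem_image_of_mem _ ((Set.Finite.mem_toFinset _).2 ⟨hs1, hzp⟩)
    apply hlS p h1
    have h2 : ∑ i, l i * q i = q s₀.1 * ∑ i, l i * p i := by
      conv_lhs => rw [hqp]
      rw [Finset.mul_sum]
      exact Finset.sum_congr rfl fun i _ => by rw [Pi.smul_apply, smul_eq_mul]; ring
    rw [h2] at hlq
    exact (mul_eq_zero.1 hlq).resolve_left hc0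
  have hFp : eval p (F t) = 0 := by
    have h1 := hz
    change eval q (F t) = 0 at h1
    rw [hqp, eval_homog (F t) (d t) (hF t)] at h1
    exact (mul_eq_zero.1 h1).resolve_left (pow_ne_zero _ hc0)
  unfold Zv at hzv
  push Not at hzv
  obtain ⟨j, hj⟩ := hzv
  rw [lg_single F a p hFp] at hj
  have hj1 : ∏ r ∈ Finset.univ.erase t, eval p (F r) ≠ 0 := right_ne_zero_of_mul hj
  have hj2 : eval p (pderiv j (F t)) ≠ 0 := right_ne_zero_of_mul (left_ne_zero_of_mul hj)
  have hcd : cd s₀.1 s₀.2 p = 0 := cd_pt s₀.1 s₀.2 1 one_ne_zero p (pt_same s₀) (fun t => by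
    rw [hp, pt_above, mul_one])
  have hp1 : p s₀.1 = 1 := pt_same s₀
  have hgerm : ∀ (G : MvPolynomial (Fin (n + 1)) ℂ) (e : ℕ), G.IsHomogeneous e →
      constantCoeff (germAt s₀.1 s₀.2 G) = eval p G := by
    intro G e hG
    have h1 := eval_germAt s₀.1 s₀.2 G e hG p (by rw [hp1]; exact one_ne_zero)
    rw [hcd, hp1, one_pow, one_mul, eval_zero] at h1
    exact h1.symm
  -- a derivative in the chart
  obtain ⟨k, hk⟩ : ∃ k : Fin n, eval p (pderiv (s₀.1.succAbove k) (F t)) ≠ 0 := by
    by_contra hcon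
    push Not at hcon
    have h1 := congrArg (eval p) (euler_hom (F t) (d t) (hF t))
    rw [map_sum, Fin.sum_univ_succAbove _ s₀.1, map_mul, eval_X, hp1, one_mul, map_mul, hFp,
      mul_zero, Finset.sum_eq_zero fun k _ => by rw [map_mul, hcon k, mul_zero], add_zero] at h1
    apply hj2
    induction j using s₀.1.succAboveCases with
    | x => exact h1
    | p k => exact hcon k
  have h5 := sf_mult_germ (fun s => germAt s₀.1 s₀.2 (F s)) a t (ha t) (by
    rw [hgerm _ _ (hF t)]
    exact hFp) k (by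
    rw [pderiv_germAt, hgerm _ _ (hF t).pderiv]
    exact hk) (fun s hs => by
    rw [hgerm _ _ (hF s)]
    exact (Finset.prod_ne_zero_iff.1 hj1) s (Finset.mem_erase.2 ⟨hs, Finset.mem_univ s⟩))
  have h6 : ∏ s, germAt s₀.1 s₀.2 (F s) ^ a s = germAt s₀.1 s₀.2 (∏ s, F s ^ a s) := by
    unfold germAt
    rw [map_prod]
    exact Finset.prod_congr rfl fun s _ => (map_pow _ _ _).symm
  rw [h6] at h5
  refine sf_of_germ _ _ (pow_hom F a d hF) s₀.1 s₀.2 ?_ _ h5
  rw [← h6]
  refine Finset.prod_ne_zero_iff.2 fun s _ => pow_ne_zero _ ?_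
  intro h7
  by_cases hst : s = t
  · subst hst
    have h8 := hgerm (pderiv (s₀.1.succAbove k) (F s)) _ (hF s).pderiv
    rw [← pderiv_germAt, h7, map_zero, map_zero] at h8
    exact hk h8.symm
  · have h8 := hgerm _ _ (hF s)
    rw [h7, map_zero] at h8
    exact (Finset.prod_ne_zero_iff.1 hj1) s (Finset.mem_erase.2 ⟨hst, Finset.mem_univ s⟩) h8.symm

end forms

end Pool.Agent.H940.P
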