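import Pool.Agent.H940.P.Cov

set_option autoImplicit false
set_option linter.unusedSectionVars false
set_option linter.unusedVariables false

/-! # Products of powers where the logarithmic gradient has a bounded order -/

namespace Pool.Agent.H940.P

open MvPolynomial Pool.Agent.W428.MOT Pool.Agent.TH192.MT Pool.Agent.TH192.DT Pool.Agent.Q49.CO
open Pool.Agent.Q57.QM Pool.Agent.Y229 Pool.Agent.Q57.MC Pool.Agent.Q57.MD
open Pool.Agent.H940.Z

section vn

variable {F : Type} [Field F]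

/-- the leading factor -/
theorem lead_factor (x : PowerSeries F) (hx : x ≠ 0) : ∃ (m : ℕ) (b : PowerSeries F),
    x = PowerSeries.X ^ m * b ∧ PowerSeries.coeff 0 b ≠ 0 ∧ Vn m x ∧ ¬ Vn (m + 1) x := by
  obtain ⟨m, h1, h2⟩ := exists_lead x hx
  obtain ⟨b, hb⟩ := vn_iff.1 h1
  refine ⟨m, b, hb, ?_, h1, fun h => h2 (h m (Nat.lt_succ_self m))⟩
  have h4 := PowerSeries.coeff_X_pow_mul b m 0
  rw [Nat.zero_add, ← hb] at h4
  rwa [h4] at h2

theorem vn_lead {m N : ℕ} {b : PowerSeries F} (hb : PowerSeries.coeff 0 b ≠ 0) :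
    Vn N (PowerSeries.X ^ m * b) ↔ N ≤ m := by
  rw [vn_X_pow_iff]
  constructor
  · intro h
    by_contra hc
    exact hb (h 0 (by omega))
  · intro h j hj
    omega

/-- products with a series of the order `c` -/
theorem vn_mul_order {c N : ℕ} (x : PowerSeries F) {y : PowerSeries F} (h1 : Vn c y)
    (h2 : ¬ Vn (c + 1) y) : Vn N (x * y) ↔ Vn (N - c) x := by
  obtain ⟨b, hb⟩ := vn_iff.1 h1
  have hb0 : PowerSeries.coeff 0 b ≠ 0 := by
    intro h3
    apply h2
    intro j hj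
    rw [hb, PowerSeries.coeff_X_pow_mul']
    split_ifs with h4
    · have : j - c = 0 := by omega
      rw [this]
      exact h3
    · rfl
  have h3 : x * y = PowerSeries.X ^ c * (b * x) := by
    rw [hb]
    ring
  rw [h3, vn_X_pow_iff, vn_unit hb0]

/-- powers -/
theorem vn_pow_iff {k N : ℕ} (hk : 1 ≤ k) (x : PowerSeries F) :
    Vn N (x ^ k) ↔ Vn ((N + k - 1) / k) x := by
  by_cases hx : x = 0
  · subst hx
    rw [zero_pow (by omega)]
    exact ⟨fun _ j _ => map_zero _, fun _ j _ => map_zero _⟩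
  · obtain ⟨m, b, rfl, hb, -, -⟩ := lead_factor x hx
    have hbk : PowerSeries.coeff 0 (b ^ k) ≠ 0 := by
      rw [PowerSeries.coeff_zero_eq_constantCoeff_apply, map_pow,
        ← PowerSeries.coeff_zero_eq_constantCoeff_apply]
      exact pow_ne_zero _ hb
    rw [mul_pow, ← pow_mul, vn_lead hbk, vn_lead hb]
    constructor
    · intro h
      have h1 : (N + k - 1) / k < m + 1 := by
        rw [Nat.div_lt_iff_lt_mul (by omega)]
        rw [Nat.add_mul, one_mul]
        omega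
      omega
    · intro h
      have h1 : (N + k - 1) / k < m + 1 := by omega
      rw [Nat.div_lt_iff_lt_mul (by omega), Nat.add_mul, one_mul] at h1
      omega

/-- bounded products -/
theorem vn_prod_bdd {ι : Type} (s : Finset ι) (a : ι → ℕ) (x : ι → PowerSeries F) (e : ℕ)
    (h : ∀ t ∈ s, ¬ Vn e (x t)) : ¬ Vn (e * ∑ t ∈ s, a t + 1) (∏ t ∈ s, x t ^ a t) := by
  classical
  have key : ∀ t, ∃ (m : ℕ) (b : PowerSeries F), t ∈ s → (x t = PowerSeries.X ^ m * b ∧
      PowerSeries.coeff 0 b ≠ 0 ∧ m ≤ e) := by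
    intro t
    by_cases hts : t ∈ s
    · have hx : x t ≠ 0 := by
        intro h0
        apply h t hts
        rw [h0]
        intro j _
        exact map_zero _
      obtain ⟨m, b, h1, h2, h3, h4⟩ := lead_factor (x t) hx
      refine ⟨m, b, fun _ => ⟨h1, h2, ?_⟩⟩
      by_contra hc
      exact h t hts (vn_mono h3 (by omega))
    · exact ⟨0, 0, fun h => absurd h hts⟩
  choose m b hmb using key
  have h1 : ∏ t ∈ s, x t ^ a t = PowerSeries.X ^ (∑ t ∈ s, m t * a t) * ∏ t ∈ s, b t ^ a t := by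
    rw [← Finset.prod_pow_eq_pow_sum, ← Finset.prod_mul_distrib]
    refine Finset.prod_congr rfl fun t ht => ?_
    rw [(hmb t ht).1, mul_pow, ← pow_mul]
  have h2 : PowerSeries.coeff 0 (∏ t ∈ s, b t ^ a t) ≠ 0 := by
    rw [PowerSeries.coeff_zero_eq_constantCoeff_apply, map_prod]
    refine Finset.prod_ne_zero_iff.2 fun t ht => ?_
    rw [map_pow, ← PowerSeries.coeff_zero_eq_constantCoeff_apply]
    exact pow_ne_zero _ (hmb t ht).2.1
  rw [h1, vn_lead h2, Finset.mul_sum]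
  have h3 : ∑ t ∈ s, m t * a t ≤ ∑ t ∈ s, e * a t :=
    Finset.sum_le_sum fun t ht => Nat.mul_le_mul_right _ (hmb t ht).2.2
  omega

end vn

section rat

variable {R : Type} [CommRing R] (u : Rˣ)

theorem rat_period {D : Set (ℤ × ℤ)} (k : ℕ) (hk : 0 < k) (hD : (-1, (k : ℤ)) ∈ D)
    (Z : PowerSeries R) (N₀ : ℕ)
    (h : ∀ N, N₀ ≤ N → PowerSeries.coeff (N + k) Z = ((u⁻¹ : Rˣ) : R) * PowerSeries.coeff N Z) :
    Z ∈ ratU u D := by
  refine geo_solve u (ν := 1) (N := k) hk hD Z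
    (Z - PowerSeries.C (((u⁻¹ : Rˣ) : R) ^ 1) * PowerSeries.X ^ k * Z) ?_ (by ring)
  refine rat_tail u _ (N₀ + k) fun N hN => ?_
  obtain ⟨m, rfl⟩ : ∃ m, N = m + k := ⟨N - k, by omega⟩
  rw [map_sub, mul_assoc, PowerSeries.coeff_C_mul, pow_one, PowerSeries.coeff_X_pow_mul,
    h m (by omega), sub_self]

end rat

variable {σ : Type} [Fintype σ] {R : Type} [CommRing R] (M : Meas ℂ R) (u : Rˣ)
  (hL : M.L = (u : R)) {T : ℕ}
include hL

/-- the powers of a polynomial on a set on which the order of its gradient is bounded -/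
theorem VS_pow_bdd {D : Set (ℤ × ℤ)} (f G : MvPolynomial σ ℂ) (k : ℕ) (hk : 1 ≤ k)
    (hD : (-1, (k : ℤ)) ∈ D) (e c : ℕ) {P : Arc ℂ σ → Prop} {q : ℕ} (hP : Cyl P q)
    (hG : ∀ γ, P γ → Vn c (aeval γ G) ∧ ¬ Vn (c + 1) (aeval γ G))
    (h : ∀ γ, P γ → ∃ s, ¬ Vn e (aeval γ (pderiv s f))) :
    VS M ((u⁻¹ : Rˣ) : R) P (f ^ k * G) ∈ ratU u D := by
  have hv : M.L * ((u⁻¹ : Rˣ) : R) = 1 := by rw [hL, Units.mul_inv]
  obtain ⟨N₀, hN₀⟩ := stable M hv f e hP h
  have h1 : ∀ N, PowerSeries.coeff N (VS M ((u⁻¹ : Rˣ) : R) P (f ^ k * G)) =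
      vo M ((u⁻¹ : Rˣ) : R) (fun γ => P γ ∧ Vn ((N - c + k - 1) / k) (aeval γ f)) := by
    intro N
    rw [coeff_VS]
    refine vo_congr M fun γ => ?_
    refine and_congr_right fun hγ => ?_
    rw [map_mul, map_pow, vn_mul_order _ (hG γ hγ).1 (hG γ hγ).2, vn_pow_iff hk]
  refine rat_period u k hk hD _ (k * N₀ + c) fun N hN => ?_
  rw [h1, h1]
  have h2 : (N + k - c + k - 1) / k = (N - c + k - 1) / k + 1 := by
    have h3 : N + k - c + k - 1 = (N - c + k - 1) + k := by omega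
    rw [h3, Nat.add_div_right _ (by omega)]
  rw [h2]
  refine hN₀ _ ?_
  rw [Nat.le_div_iff_mul_le (by omega), mul_comm]
  omega

theorem lg_vn (F : Fin T → MvPolynomial σ ℂ) (a : Fin T → ℕ) (e : ℕ) (γ : Arc ℂ σ) (s : σ)
    (h : ∀ t, Vn e (aeval γ (pderiv s (F t)) * ∏ r ∈ Finset.univ.erase t, aeval γ (F r))) :
    Vn e (aeval γ (lg F a s)) := by
  rw [lg_def, map_sum]
  refine vn_sum _ _ fun t _ => ?_
  rw [map_mul, map_mul, map_prod, mul_assoc]
  exact vn_mul _ (h t)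

/-- **The series on a set on which the order of the logarithmic gradient is bounded.** -/
theorem VS_lg_bdd {D : Set (ℤ × ℤ)} (F : Fin T → MvPolynomial σ ℂ) (a : Fin T → ℕ)
    (ha : ∀ t, 1 ≤ a t) (hD : ∀ t, (-1, (a t : ℤ)) ∈ D) (e : ℕ) {P : Arc ℂ σ → Prop} {q : ℕ}
    (hP : Cyl P q) (h : ∀ γ, P γ → ∃ s, ¬ Vn e (aeval γ (lg F a s))) :
    VS M ((u⁻¹ : Rˣ) : R) P (∏ t, F t ^ a t) ∈ ratU u D := by
  classical
  have hv : M.L * ((u⁻¹ : Rˣ) : R) = 1 := by rw [hL, Units.mul_inv]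
  set Q : Fin T → Arc ℂ σ → Prop := fun t γ => Vn e (aeval γ (F t)) with hQ
  have hQc : ∀ t, Cyl (Q t) e := fun t => Cyl.vn (F t) (by omega)
  have hPm : Cyl P (max q e) := hP.mono (le_max_left _ _)
  have hQm : ∀ t, Cyl (Q t) (max q e) := fun t => (hQc t).mono (le_max_right _ _)
  -- at most one of the `F t` is small
  have huniq : ∀ γ, P γ → ∀ t t', Q t γ → Q t' γ → t = t' := by
    intro γ hγ t t' h1 h2
    by_contra hne
    obtain ⟨s, hs⟩ := h γ hγ
    refine hs (lg_vn M u hL F a e γ s fun r => ?_)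
    refine vn_mul _ ?_
    by_cases hr : r = t
    · subst hr
      rw [← Finset.mul_prod_erase _ _ (Finset.mem_erase.2 ⟨Ne.symm hne, Finset.mem_univ t'⟩),
        mul_comm]
      exact vn_mul _ h2
    · rw [← Finset.mul_prod_erase _ _ (Finset.mem_erase.2 ⟨Ne.symm hr, Finset.mem_univ t⟩),
        mul_comm]
      exact vn_mul _ h1
  have hcR : Cyl (fun γ => ∃ t, Q t γ) (max q e) := Cyl.ex hQm
  rw [VS_split M hv hPm hcR]
  refine Subalgebra.add_mem _ ?_ ?_
  · have h1 : (fun γ => P γ ∧ ∃ t, Q t γ) = fun γ => ∃ t ∈ Finset.univ, P γ ∧ Q t γ := by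
      refine funext fun γ => propext ⟨fun ⟨h1, t, h2⟩ => ⟨t, Finset.mem_univ t, h1, h2⟩, ?_⟩
      rintro ⟨t, -, h1, h2⟩
      exact ⟨h1, t, h2⟩
    rw [h1, VS_sum M hv Finset.univ (q := max q e) (fun t _ => hPm.and (hQm t))
      (fun t _ t' _ hne γ h2 h3 => hne (huniq γ h2.1 t t' h2.2 h3.2))]
    refine Subalgebra.sum_mem _ fun t _ => ?_
    -- split by the order of the other factors
    set G : MvPolynomial σ ℂ := ∏ r ∈ Finset.univ.erase t, F r ^ a r with hG
    set E := e * ∑ r ∈ Finset.univ.erase t, a r + 1 with hE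
    have hfac : ∏ r, F r ^ a r = F t ^ a t * G :=
      (Finset.mul_prod_erase Finset.univ (fun r => F r ^ a r) (Finset.mem_univ t)).symm
    have hGE : ∀ γ, P γ ∧ Q t γ → ¬ Vn E (aeval γ G) := by
      rintro γ ⟨h2, h3⟩
      have h4 := vn_prod_bdd (Finset.univ.erase t) a (fun r => aeval γ (F r)) e (fun r hr h5 =>
        Finset.ne_of_mem_erase hr (huniq γ h2 r t h5 h3))
      rw [hG, map_prod]
      simp only [map_pow]
      exact h4
    have h2 : (fun γ => P γ ∧ Q t γ) = fun γ => ∃ c ∈ Finset.range E,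
        (P γ ∧ Q t γ) ∧ Vn c (aeval γ G) ∧ ¬ Vn (c + 1) (aeval γ G) := by
      refine funext fun γ => propext ⟨fun h2 => ?_, fun ⟨_, _, h2, _⟩ => h2⟩
      have h3 := hGE γ h2
      have h4 : aeval γ G ≠ 0 := by
        intro h5
        apply h3
        rw [h5]
        intro j _
        exact map_zero _
      obtain ⟨m, b, -, -, h5, h6⟩ := lead_factor _ h4
      refine ⟨m, Finset.mem_range.2 ?_, h2, h5, h6⟩
      by_contra hc
      exact h3 (vn_mono h5 (by omega))
    have hcyl : ∀ c ∈ Finset.range E, Cyl (fun γ => (P γ ∧ Q t γ) ∧ Vn c (aeval γ G) ∧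
        ¬ Vn (c + 1) (aeval γ G)) (max (max q e) (E + 1)) := by
      intro c hc
      rw [Finset.mem_range] at hc
      exact ((hPm.and (hQm t)).mono (le_max_left _ _)).and (((Cyl.vn G (by omega :
        c ≤ E + 1 + 1)).mono (le_max_right _ _)).and
        ((Cyl.vn G (by omega : c + 1 ≤ E + 1 + 1)).mono (le_max_right _ _)).not)
    rw [h2, VS_sum M hv (Finset.range E) hcyl (fun c _ c' _ hne γ h3 h4 => by
      rcases Nat.lt_or_gt_of_ne hne with h5 | h5
      · exact h3.2.2 (vn_mono h4.2.1 (by omega))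
      · exact h4.2.2 (vn_mono h3.2.1 (by omega)))]
    refine Subalgebra.sum_mem _ fun c hc => ?_
    rw [hfac]
    refine VS_pow_bdd M u hL (F t) G (a t) (ha t) (hD t) e c (hcyl c hc) (fun γ h3 => h3.2)
      fun γ h3 => ?_
    by_contra hcon
    push Not at hcon
    obtain ⟨s, hs⟩ := h γ h3.1.1
    refine hs (lg_vn M u hL F a e γ s fun r => ?_)
    by_cases hr : r = t
    · subst hr
      rw [mul_comm]
      exact vn_mul _ (hcon s)
    · refine vn_mul _ ?_
      rw [← Finset.mul_prod_erase _ _ (Finset.mem_erase.2 ⟨Ne.symm hr, Finset.mem_univ t⟩),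
        mul_comm]
      exact vn_mul _ h3.1.2
  · refine rat_tail u _ (e * ∑ t, a t + 1) fun N hN => ?_
    rw [coeff_VS]
    refine vo_false M hv fun γ hγ => ?_
    have h2 := vn_prod_bdd Finset.univ a (fun t => aeval γ (F t)) e (fun t _ h3 => hγ.1.2 ⟨t, h3⟩)
    apply h2
    have h3 := hγ.2
    rw [map_prod] at h3
    simp only [map_pow] at h3
    exact vn_mono h3 hN

end Pool.Agent.H940.P
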