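import Pool.Agent.H940.P.Loc
import Pool.Agent.H940.G.Cover

set_option autoImplicit false
set_option linter.unusedSectionVars false
set_option linter.unusedVariables false

/-! # The zero lines of the logarithmic gradient of a product of powers of forms -/

namespace Pool.Agent.H940.P

open MvPolynomial
open Pool.Agent.H940.LT (eval_homog euler_hom LTy hom_lty')
open Pool.Agent.H940.G

variable {n T : ℕ}

section at'

variable (g : MvPolynomial (Fin (n + 1)) ℂ) (v : Fin (n + 1) → MvPolynomial (Fin (n + 1)) ℂ)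
  (m : ℕ) (hg : g.IsHomogeneous (m + 1)) (hv : ∀ j, (v j).IsHomogeneous m)
  (i : Fin (n + 1)) (q : Fin n → ℂ)
include hv

include hg in
/-- the Euler relation of the germ -/
theorem euler_at' (u : MvPolynomial (Fin n) ℂ) (a : Fin n → MvPolynomial (Fin n) ℂ)
    (hu : constantCoeff u ≠ 0) (ha : ∀ t, constantCoeff (a t) = 0)
    (h : u * germAt i q g = ∑ t, a t * germAt i q (v (i.succAbove t))) :
    ∃ (U : MvPolynomial (Fin (n + 1)) ℂ) (A : Fin (n + 1) → MvPolynomial (Fin (n + 1)) ℂ),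
      U * g = ∑ j, A j * v j ∧ ∀ x : Fin (n + 1) → ℂ, x i ≠ 0 →
        (∀ t, x (i.succAbove t) = q t * x i) → eval x U ≠ 0 ∧ ∀ j, eval x (A j) = 0 := by
  obtain ⟨K, Q, hQ⟩ := exists_hz i q (fun o : Option (Fin n) => o.elim u a)
  refine ⟨Q none, i.insertNth 0 fun t => X i * Q (some t), ?_, fun x hx hxq => ⟨?_, fun j => ?_⟩⟩
  · refine eq_of_eval i _ _ fun x hx => ?_
    rw [Fin.sum_univ_succAbove _ i, Fin.insertNth_apply_same, zero_mul, zero_add, map_mul,
      map_sum, hQ none x hx, eval_germAt i q g (m + 1) hg x hx]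
    have h1 := congrArg (eval (cd i q x)) h
    rw [map_mul, map_sum] at h1
    change x i ^ K * eval (cd i q x) u * (x i ^ (m + 1) * eval (cd i q x) (germAt i q g)) = _
    have h2 : x i ^ K * eval (cd i q x) u * (x i ^ (m + 1) * eval (cd i q x) (germAt i q g)) =
        x i ^ K * x i ^ (m + 1) * (eval (cd i q x) u * eval (cd i q x) (germAt i q g)) := by ring
    rw [h2, h1, Finset.mul_sum]
    refine Finset.sum_congr rfl fun t _ => ?_
    rw [Fin.insertNth_apply_succAbove, map_mul, map_mul, map_mul, eval_X, hQ (some t) x hx,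
      eval_germAt i q (v (i.succAbove t)) m (hv _) x hx]
    change _ = x i * (x i ^ K * eval (cd i q x) (a t)) * _
    ring
  · rw [hQ none x hx, cd_pt i q (x i) hx x rfl hxq, eval_zero]
    exact mul_ne_zero (pow_ne_zero _ hx) hu
  · induction j using i.succAboveCases with
    | x => rw [Fin.insertNth_apply_same, map_zero]
    | p t =>
      rw [Fin.insertNth_apply_succAbove, map_mul, hQ (some t) x hx,
        cd_pt i q (x i) hx x rfl hxq, eval_zero]
      change _ * (_ * constantCoeff (a t)) = 0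
      rw [ha, mul_zero, mul_zero]

/-- powers of the local coordinates -/
theorem pow_at' (L : ℕ) (u : MvPolynomial (Fin n) ℂ) (hu : constantCoeff u ≠ 0)
    (h : ∀ t, u * X t ^ L ∈ Ideal.span (Set.range fun t => germAt i q (v (i.succAbove t)))) :
    ∃ U : MvPolynomial (Fin (n + 1)) ℂ, (∀ x : Fin (n + 1) → ℂ, x i ≠ 0 →
        (∀ t, x (i.succAbove t) = q t * x i) → eval x U ≠ 0) ∧
      ∀ t, U * (X (i.succAbove t) - C (q t) * X i) ^ L ∈
        Ideal.span (Set.range v) := by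
  choose c hc using fun t => (Ideal.mem_span_range_iff_exists_fun
    (R := MvPolynomial (Fin n) ℂ)).1 (h t)
  obtain ⟨K, Q, hQ⟩ := exists_hz i q (fun o : Option (Fin n × Fin n) => o.elim u
    fun z => c z.1 z.2)
  refine ⟨X i ^ m * Q none, fun x hx hxq => ?_, fun t => ?_⟩
  · rw [map_mul, map_pow, eval_X, hQ none x hx, cd_pt i q (x i) hx x rfl hxq, eval_zero]
    exact mul_ne_zero (pow_ne_zero _ hx) (mul_ne_zero (pow_ne_zero _ hx) hu)
  · have h1 : X i ^ m * Q none * (X (i.succAbove t) - C (q t) * X i) ^ L =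
        ∑ s, X i ^ L * Q (some (t, s)) * v (i.succAbove s) := by
      refine eq_of_eval i _ _ fun x hx => ?_
      have h2 := congrArg (eval (cd i q x)) (hc t)
      rw [map_sum, map_mul, map_pow, eval_X] at h2
      simp only [map_sum, map_mul, map_pow, map_sub, eval_X, eval_C]
      rw [hQ none x hx]
      have h3 : x (i.succAbove t) - q t * x i = x i * cd i q x t := by
        unfold cd
        field_simp
      rw [h3, mul_pow]
      change x i ^ m * (x i ^ K * eval (cd i q x) u) * (x i ^ L * cd i q x t ^ L) = _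
      have h4 : x i ^ m * (x i ^ K * eval (cd i q x) u) * (x i ^ L * cd i q x t ^ L) =
          x i ^ m * x i ^ K * x i ^ L * (eval (cd i q x) u * cd i q x t ^ L) := by ring
      rw [h4, ← h2, Finset.mul_sum]
      refine Finset.sum_congr rfl fun s _ => ?_
      rw [hQ (some (t, s)) x hx, eval_germAt i q (v (i.succAbove s)) m (hv _) x hx, map_mul]
      change _ = x i ^ L * (x i ^ K * eval (cd i q x) (c t s)) * _
      ring
    rw [h1]
    exact Ideal.sum_mem _ fun s _ => Ideal.mul_mem_left _ _ (Ideal.subset_span ⟨_, rfl⟩)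

end at'

/-- the common zeros -/
def Zv (v : Fin (n + 1) → MvPolynomial (Fin (n + 1)) ℂ) (x : Fin (n + 1) → ℂ) : Prop :=
  ∀ j, eval x (v j) = 0

section lines

variable {v : Fin (n + 1) → MvPolynomial (Fin (n + 1)) ℂ} {m : ℕ}

theorem Zv.smul (hv : ∀ j, (v j).IsHomogeneous m) {x : Fin (n + 1) → ℂ} (h : Zv v x) (c : ℂ) :
    Zv v (c • x) := by
  intro j
  rw [eval_homog _ m (hv j), h j, mul_zero]

theorem zv_on (hv : ∀ j, (v j).IsHomogeneous m)
    {s : Fin (n + 1) × (Fin n → ℂ)} {x : Fin (n + 1) → ℂ} (h : On s x) (hx : Zv v x) :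
    Zv v (pt s) := by
  have h1 : pt s = (x s.1)⁻¹ • x := by
    conv_rhs => rw [h.eq]
    rw [smul_smul, Pi.smul_apply, pt_same, smul_eq_mul, mul_one, inv_mul_cancel₀ h.1, one_smul]
  rw [h1]
  exact hx.smul hv _

/-- **There are only finitely many zero lines.** -/
theorem finite_lines' (hpow : ∀ s : Fin (n + 1) × (Fin n → ℂ), Zv v (pt s) →
      ∃ (L : ℕ) (U : MvPolynomial (Fin (n + 1)) ℂ),
      (∀ x : Fin (n + 1) → ℂ, On s x → eval x U ≠ 0) ∧
      ∀ t, U * an s.1 s.2 t ^ L ∈ Ideal.span (Set.range v)) :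
    {s : Fin (n + 1) × (Fin n → ℂ) | Cn s ∧ Zv v (pt s)}.Finite := by
  classical
  set 𝒮 : Set (Fin (n + 1) × (Fin n → ℂ)) := {s | Cn s ∧ Zv v (pt s)} with h𝒮
  choose! L U hU hmem using fun (s : Fin (n + 1) × (Fin n → ℂ)) (h : s ∈ 𝒮) => hpow s h.2
  obtain ⟨T, hT, hspan⟩ := Submodule.fg_span_iff_fg_span_finset_subset
    (R := MvPolynomial (Fin (n + 1)) ℂ) (U '' 𝒮) |>.1 (IsNoetherian.noetherian _)
  obtain ⟨T', hT'𝒮, hT'⟩ : ∃ T' : Finset (Fin (n + 1) × (Fin n → ℂ)), (∀ s ∈ T', s ∈ 𝒮) ∧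
      ∀ P ∈ T, ∃ s ∈ T', U s = P := by
    choose! c hc using fun (P : MvPolynomial (Fin (n + 1)) ℂ) (hP : P ∈ U '' 𝒮) => hP
    refine ⟨T.image c, fun s hs => ?_, fun P hP => ?_⟩
    · obtain ⟨P, hP, rfl⟩ := Finset.mem_image.1 hs
      exact (hc P (hT hP)).1
    · exact ⟨c P, Finset.mem_image_of_mem _ hP, (hc P (hT hP)).2⟩
  refine T'.finite_toSet.subset fun s hs => ?_
  -- one of the finitely many `U` does not vanish at the point
  have h1 : ∃ s' ∈ T', eval (pt s) (U s') ≠ 0 := by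
    by_contra hc
    push Not at hc
    have h2 : U s ∈ Submodule.span (MvPolynomial (Fin (n + 1)) ℂ) (U '' 𝒮) :=
      Submodule.subset_span ⟨s, hs, rfl⟩
    rw [hspan] at h2
    have h3 : Submodule.span (MvPolynomial (Fin (n + 1)) ℂ) (T : Set (MvPolynomial (Fin (n + 1)) ℂ)) ≤
        RingHom.ker (eval (pt s)) := by
      refine Submodule.span_le.2 fun P hP => ?_
      obtain ⟨s', hs', rfl⟩ := hT' P hP
      exact hc s' hs'
    exact hU s hs (pt s) (on_pt s) (h3 h2)
  obtain ⟨s', hs', h2⟩ := h1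
  have h3 : On s' (pt s) := by
    have h4 : ∀ t, eval (pt s) (an s'.1 s'.2 t) = 0 := by
      intro t
      have h5 : Ideal.span (Set.range v) ≤ RingHom.ker (eval (pt s)) := by
        refine Ideal.span_le.2 ?_
        rintro _ ⟨j, rfl⟩
        exact hs.2 j
      have h6 := h5 (hmem s' (hT'𝒮 s' hs') t)
      rw [RingHom.mem_ker, map_mul, map_pow] at h6
      exact eq_zero_of_pow_eq_zero ((mul_eq_zero.1 h6).resolve_left h2)
    have h5 : ∀ t, pt s (s'.1.succAbove t) = s'.2 t * pt s s'.1 := by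
      intro t
      have := h4 t
      unfold an at this
      rw [map_sub, map_mul, eval_X, eval_X, eval_C] at this
      linear_combination this
    refine ⟨fun h6 => pt_ne s (funext fun j => ?_), h5⟩
    induction j using s'.1.succAboveCases with
    | x => rw [h6, Pi.zero_apply]
    | p t => rw [h5 t, h6, mul_zero, Pi.zero_apply]
  have h4 : s = s' := (on_pt s).unique hs.1 (hT'𝒮 s' hs').1 h3
  rw [h4]
  exact hs'

end lines

/-- Everywhere on the singular locus of the projective hypersurface `∏ F_t = 0` the tuple of the germs of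
the `F_t` is weighted homogeneous in formal coordinates, and `∏ F_t` has an isolated singularity. -/
def LHT (F : Fin T → MvPolynomial (Fin (n + 1)) ℂ) : Prop :=
  ∀ (i : Fin (n + 1)) (q : Fin n → ℂ),
    (∀ j, eval (i.insertNth 1 q) (pderiv j (∏ t, F t)) = 0) →
    ∃ (g : Fin T → MvPolynomial (Fin n) ℂ) (w : Fin n → ℕ) (N : Fin T → ℕ)
      (η : Fin n → MvPowerSeries (Fin n) ℂ), WHT (fun t => germAt i q (F t)) g w N η

theorem germ_prod (i : Fin (n + 1)) (q : Fin n → ℂ) (F : Fin T → MvPolynomial (Fin (n + 1)) ℂ) :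
    germAt i q (∏ t, F t) = ∏ t, germAt i q (F t) := by
  unfold germAt
  rw [map_prod]

theorem germ_lg (i : Fin (n + 1)) (q : Fin n → ℂ) (F : Fin T → MvPolynomial (Fin (n + 1)) ℂ)
    (a : Fin T → ℕ) (j : Fin n) :
    germAt i q (lg F a (i.succAbove j)) = lg (fun t => germAt i q (F t)) a j := by
  rw [lg_def, lg_def]
  simp only [pderiv_germAt]
  unfold germAt
  rw [map_sum]
  refine Finset.sum_congr rfl fun t _ => ?_
  rw [map_mul, map_mul, map_prod, map_natCast]

section forms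

variable {F : Fin T → MvPolynomial (Fin (n + 1)) ℂ} {d : Fin T → ℕ} (hd : ∀ t, 1 ≤ d t)
  (hd2 : 2 ≤ ∑ t, d t) (hF : ∀ t, (F t).IsHomogeneous (d t)) (hF0 : ∀ t, F t ≠ 0)
  (H : LHT F) (a : Fin T → ℕ) (ha : ∀ t, 1 ≤ a t)
include hd hd2 hF hF0 ha

omit hd hd2 ha in
theorem prod_hom : (∏ t, F t).IsHomogeneous (∑ t, d t) := IsHomogeneous.prod _ _ _ fun t _ => hF t

theorem na_ne : ((∑ t, a t * d t : ℕ) : ℂ) ≠ 0 := by
  have h3 : ∑ t, d t ≤ ∑ t, a t * d t :=
    Finset.sum_le_sum fun t _ => Nat.le_mul_of_pos_left _ (ha t)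
  have h4 : ∑ t, a t * d t ≠ 0 := by omega
  exact_mod_cast h4

theorem prod_zero {x : Fin (n + 1) → ℂ} (h : Zv (lg F a) x) : eval x (∏ t, F t) = 0 := by
  have h1 := congrArg (eval x) (lg_euler F a d hF)
  rw [map_sum, map_mul, eval_C] at h1
  have h2 : ∑ i, eval x (X i * lg F a i) = 0 := Finset.sum_eq_zero fun i _ => by
    rw [map_mul, h i, mul_zero]
  rw [h2] at h1
  exact (mul_eq_zero.1 h1.symm).resolve_left (na_ne hd hd2 hF hF0 a ha)

theorem zv_sg {x : Fin (n + 1) → ℂ} (h : Zv (lg F a) x) : Sg (∏ t, F t) x := by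
  intro j
  rw [← lg_one F (Finset.prod_ne_zero_iff.2 fun t _ => hF0 t)]
  exact lg_zero F (fun _ => 1) ha x (prod_zero hd hd2 hF hF0 a ha h) h j

include H

theorem euler_line' {s : Fin (n + 1) × (Fin n → ℂ)} (h : Zv (lg F a) (pt s)) :
    ∃ (U : MvPolynomial (Fin (n + 1)) ℂ) (A : Fin (n + 1) → MvPolynomial (Fin (n + 1)) ℂ),
      U * (∏ t, F t) = ∑ j, A j * lg F a j ∧ ∀ x : Fin (n + 1) → ℂ, On s x →
        eval x U ≠ 0 ∧ ∀ j, eval x (A j) = 0 := by
  have hg0 : ∏ t, F t ≠ 0 := Finset.prod_ne_zero_iff.2 fun t _ => hF0 t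
  have hsg := zv_sg hd hd2 hF hF0 a ha h
  obtain ⟨g, w, N, η, hg⟩ := H s.1 s.2 hsg
  have h0 := cc_germ hd2 (prod_hom hF hF0) hg0 hsg
  have h1 := cc_pd_germ hd2 (prod_hom hF hF0) hg0 hsg
  rw [germ_prod] at h0
  rw [germ_prod] at h1
  obtain ⟨u, b, hu, hb, h2⟩ := exists_euler' hg h0 h1 a ha
    (pos_of_sg hd2 (prod_hom hF hF0) hg0 (pt_ne s) hsg)
  have hm : (∏ t, F t).IsHomogeneous (∑ t, d t - 1 + 1) := by
    have h3 : ∑ t, d t - 1 + 1 = ∑ t, d t := by omega
    rw [h3]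
    exact prod_hom hF hF0
  obtain ⟨U, A, h3, h4⟩ := euler_at' (∏ t, F t) (lg F a) (∑ t, d t - 1) hm (lg_hom F a d hd hF)
    s.1 s.2 u b hu hb (by
      rw [germ_prod, h2]
      exact Finset.sum_congr rfl fun t _ => by rw [germ_lg])
  exact ⟨U, A, h3, fun x hx => h4 x hx.1 hx.2⟩

theorem pow_line' {s : Fin (n + 1) × (Fin n → ℂ)} (h : Zv (lg F a) (pt s)) :
    ∃ (L : ℕ) (U : MvPolynomial (Fin (n + 1)) ℂ), (∀ x : Fin (n + 1) → ℂ, On s x → eval x U ≠ 0) ∧
      ∀ t, U * an s.1 s.2 t ^ L ∈ Ideal.span (Set.range (lg F a)) := by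
  have hg0 : ∏ t, F t ≠ 0 := Finset.prod_ne_zero_iff.2 fun t _ => hF0 t
  have hsg := zv_sg hd hd2 hF hF0 a ha h
  obtain ⟨g, w, N, η, hg⟩ := H s.1 s.2 hsg
  have h0 := cc_germ hd2 (prod_hom hF hF0) hg0 hsg
  have h1 := cc_pd_germ hd2 (prod_hom hF hF0) hg0 hsg
  rw [germ_prod] at h0
  rw [germ_prod] at h1
  obtain ⟨L, u, hu, h2⟩ := exists_pow' hg h0 h1 a ha
    (pos_of_sg hd2 (prod_hom hF hF0) hg0 (pt_ne s) hsg)
  obtain ⟨U, h3, h4⟩ := pow_at' (lg F a) (∑ t, d t - 1) (lg_hom F a d hd hF) s.1 s.2 L u hu (by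
    intro t
    have h5 := h2 t
    simp only [← germ_lg] at h5
    exact h5)
  exact ⟨L, U, fun x hx => h3 x hx.1 hx.2, h4⟩

/-- **The logarithmic gradient is of linear type.** -/
theorem lty' : LTy fun i => lg F a i := by
  classical
  set S := (finite_lines' fun s hs => pow_line' hd hd2 hF hF0 H a ha hs).toFinset with hS
  have hg0 : ∏ t, F t ≠ 0 := Finset.prod_ne_zero_iff.2 fun t _ => hF0 t
  refine hom_lty' (∏ t, F t) (lg F a) hg0 (∑ t, d t) hd2 (prod_hom hF hF0) (lg_hom F a d hd hF)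
    ((∑ t, a t * d t : ℕ) : ℂ) (na_ne hd hd2 hF hF0 a ha) (lg_euler F a d hF) (S.image pt) ?_ ?_ ?_
  · intro p hp
    obtain ⟨s, _, rfl⟩ := Finset.mem_image.1 hp
    exact pt_ne s
  · intro q hq hsg
    obtain ⟨s, hs, hon⟩ := exists_On q hq
    exact ⟨pt s, Finset.mem_image_of_mem _ ((Set.Finite.mem_toFinset _).2
      ⟨hs, zv_on (lg_hom F a d hd hF) hon hsg⟩), _, hon.eq⟩
  · intro q hq hsg
    obtain ⟨s, hs, hon⟩ := exists_On q hq
    obtain ⟨U, A, h1, h2⟩ := euler_line' hd hd2 hF hF0 H a ha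
      (zv_on (lg_hom F a d hd hF) hon hsg)
    exact ⟨U, A, (h2 q hon).1, (h2 q hon).2, h1⟩

end forms

end Pool.Agent.H940.P
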