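import Pool.Agent.H940.LT.HomV
import Pool.Agent.H940.Z.Whi

set_option autoImplicit false
set_option linter.unusedSectionVars false
set_option linter.unusedVariables false

/-! # Logarithmic gradients of products of powers -/

namespace Pool.Agent.H940.P

open MvPolynomial
open Pool.Agent.H940.LT (eval_homog euler_hom)

section der

variable {A : Type} [CommRing A] [Algebra ℂ A] (D : Derivation ℂ A A)
  {ι : Type} [DecidableEq ι]

/-- `∑_t a_t D(h_t) ∏_(s ≠ t) h_s` -/
noncomputable def lgD (s : Finset ι) (a : ι → ℕ) (h : ι → A) : A :=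
  ∑ t ∈ s, (a t : A) * D (h t) * ∏ r ∈ s.erase t, h r

theorem lgD_mul (s : Finset ι) (a : ι → ℕ) (h : ι → A) :
    (∏ t ∈ s, h t) * D (∏ t ∈ s, h t ^ a t) = (∏ t ∈ s, h t ^ a t) * lgD D s a h := by
  induction s using Finset.induction_on with
  | empty => simp [lgD]
  | insert t₀ s ht ih =>
    rw [Finset.prod_insert ht, Finset.prod_insert ht, Derivation.leibniz, smul_eq_mul,
      smul_eq_mul]
    have h1 : lgD D (insert t₀ s) a h = (a t₀ : A) * D (h t₀) * ∏ r ∈ s, h r +
        h t₀ * lgD D s a h := by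
      unfold lgD
      rw [Finset.sum_insert ht, Finset.erase_insert ht, Finset.mul_sum]
      congr 1
      refine Finset.sum_congr rfl fun t hts => ?_
      have hne : t₀ ≠ t := fun h => ht (h ▸ hts)
      rw [Finset.erase_insert_of_ne hne, Finset.prod_insert (fun h => ht (Finset.mem_of_mem_erase h))]
      ring
    have h2 : h t₀ * D (h t₀ ^ a t₀) = h t₀ ^ a t₀ * ((a t₀ : A) * D (h t₀)) := by
      rw [Derivation.leibniz_pow, nsmul_eq_mul, smul_eq_mul]
      cases a t₀ with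
      | zero => simp
      | succ k =>
        rw [Nat.add_sub_cancel, pow_succ]
        ring
    rw [h1]
    linear_combination (h t₀ * h t₀ ^ a t₀) * ih + (∏ t ∈ s, h t) * (∏ t ∈ s, h t ^ a t) * h2

theorem lgD_unit (s : Finset ι) (a : ι → ℕ) (U k : ι → A) :
    lgD D s a (fun t => U t * k t) = (∏ t ∈ s, U t) * lgD D s a k +
      (∏ t ∈ s, k t) * lgD D s a U := by
  unfold lgD
  rw [Finset.mul_sum, Finset.mul_sum, ← Finset.sum_add_distrib]
  refine Finset.sum_congr rfl fun t ht => ?_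
  rw [Derivation.leibniz, smul_eq_mul, smul_eq_mul, Finset.prod_mul_distrib,
    ← Finset.mul_prod_erase s U ht, ← Finset.mul_prod_erase s k ht]
  ring

end der

section poly

variable {σ : Type} {T : ℕ}

/-- The logarithmic gradient of `∏ F_t ^ (a_t)`, multiplied by `∏ F_t`. -/
noncomputable def lg (F : Fin T → MvPolynomial σ ℂ) (a : Fin T → ℕ) (i : σ) : MvPolynomial σ ℂ :=
  lgD (pderiv i) Finset.univ a F

theorem lg_def (F : Fin T → MvPolynomial σ ℂ) (a : Fin T → ℕ) (i : σ) :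
    lg F a i = ∑ t, (a t : MvPolynomial σ ℂ) * pderiv i (F t) *
      ∏ r ∈ Finset.univ.erase t, F r := rfl

theorem lg_mul (F : Fin T → MvPolynomial σ ℂ) (a : Fin T → ℕ) (i : σ) :
    (∏ t, F t) * pderiv i (∏ t, F t ^ a t) = (∏ t, F t ^ a t) * lg F a i :=
  lgD_mul (pderiv i) Finset.univ a F

theorem lg_one (F : Fin T → MvPolynomial σ ℂ) (h : ∏ t, F t ≠ 0) (i : σ) :
    lg F (fun _ => 1) i = pderiv i (∏ t, F t) := by
  have h1 := lg_mul F (fun _ => 1) i
  simp only [pow_one] at h1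
  exact (mul_left_cancel₀ h h1).symm

theorem eval_lg (F : Fin T → MvPolynomial σ ℂ) (a : Fin T → ℕ) (i : σ) (x : σ → ℂ) :
    eval x (lg F a i) = ∑ t, (a t : ℂ) * eval x (pderiv i (F t)) *
      ∏ r ∈ Finset.univ.erase t, eval x (F r) := by
  rw [lg_def, map_sum]
  refine Finset.sum_congr rfl fun t _ => ?_
  rw [map_mul, map_mul, map_natCast, map_prod]

/-- two of the `F_t` vanish -/
theorem lg_two (F : Fin T → MvPolynomial σ ℂ) (a : Fin T → ℕ) (x : σ → ℂ) {t t' : Fin T}
    (hne : t ≠ t') (h : eval x (F t) = 0) (h' : eval x (F t') = 0) (i : σ) :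
    eval x (lg F a i) = 0 := by
  rw [eval_lg]
  refine Finset.sum_eq_zero fun s _ => ?_
  by_cases hs : s = t
  · subst hs
    rw [Finset.prod_eq_zero (Finset.mem_erase.2 ⟨hne.symm, Finset.mem_univ t'⟩) h', mul_zero]
  · rw [Finset.prod_eq_zero (Finset.mem_erase.2 ⟨Ne.symm hs, Finset.mem_univ t⟩) h, mul_zero]

/-- only one of the `F_t` vanishes -/
theorem lg_single (F : Fin T → MvPolynomial σ ℂ) (a : Fin T → ℕ) (x : σ → ℂ) {t : Fin T}
    (h : eval x (F t) = 0) (i : σ) :
    eval x (lg F a i) = (a t : ℂ) * eval x (pderiv i (F t)) *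
      ∏ r ∈ Finset.univ.erase t, eval x (F r) := by
  rw [eval_lg]
  refine Finset.sum_eq_single t (fun s _ hs => ?_) fun h => absurd (Finset.mem_univ t) h
  rw [Finset.prod_eq_zero (Finset.mem_erase.2 ⟨Ne.symm hs, Finset.mem_univ t⟩) h, mul_zero]

/-- the common zeros do not depend on the exponents -/
theorem lg_zero (F : Fin T → MvPolynomial σ ℂ) {a : Fin T → ℕ} (a' : Fin T → ℕ) (ha : ∀ t, 1 ≤ a t)
    (x : σ → ℂ) (h0 : eval x (∏ t, F t) = 0) (h : ∀ i, eval x (lg F a i) = 0) (i : σ) :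
    eval x (lg F a' i) = 0 := by
  rw [map_prod] at h0
  obtain ⟨t, -, ht⟩ := Finset.prod_eq_zero_iff.1 h0
  by_cases h1 : ∃ t', t ≠ t' ∧ eval x (F t') = 0
  · obtain ⟨t', h2, h3⟩ := h1
    exact lg_two F a' x h2 ht h3 i
  · push Not at h1
    have h2 := h i
    rw [lg_single F a x ht] at h2
    rw [lg_single F a' x ht]
    have h3 : ∏ r ∈ Finset.univ.erase t, eval x (F r) ≠ 0 :=
      Finset.prod_ne_zero_iff.2 fun r hr => h1 r (Finset.ne_of_mem_erase hr).symm
    have h4 : (a t : ℂ) ≠ 0 := by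
      have := ha t
      have h5 : a t ≠ 0 := by omega
      exact_mod_cast h5
    have h5 := (mul_eq_zero.1 ((mul_eq_zero.1 h2).resolve_right h3)).resolve_left h4
    rw [h5, mul_zero, zero_mul]

theorem lg_hom {n : ℕ} (F : Fin T → MvPolynomial (Fin n) ℂ) (a : Fin T → ℕ) (d : Fin T → ℕ)
    (hd : ∀ t, 1 ≤ d t) (hF : ∀ t, (F t).IsHomogeneous (d t)) (i : Fin n) :
    (lg F a i).IsHomogeneous (∑ t, d t - 1) := by
  rw [lg_def]
  refine IsHomogeneous.sum _ _ _ fun t _ => ?_
  have h1 : ∑ t, d t - 1 = 0 + (d t - 1) + ∑ r ∈ Finset.univ.erase t, d r := by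
    rw [← Finset.add_sum_erase _ _ (Finset.mem_univ t)]
    have := hd t
    omega
  rw [h1]
  refine ((?_ : IsHomogeneous _ 0).mul (hF t).pderiv).mul (IsHomogeneous.prod _ _ _ fun r _ => hF r)
  have h2 : ((a t : MvPolynomial (Fin n) ℂ)) = C (a t : ℂ) := by rw [map_natCast]
  rw [h2]
  exact isHomogeneous_C _ _

/-- weighted homogeneity -/
theorem lg_whom {n : ℕ} (g : Fin T → MvPolynomial (Fin n) ℂ) (a : Fin T → ℕ) (w : Fin n → ℕ)
    (N : Fin T → ℕ) (hg : ∀ t, IsWeightedHomogeneous w (g t) (N t)) (i : Fin n)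
    (hN : w i ≤ ∑ t, N t) :
    IsWeightedHomogeneous w (lg g a i) (∑ t, N t - w i) := by
  rw [lg_def]
  refine IsWeightedHomogeneous.sum _ _ _ fun t _ => ?_
  have h0 : IsWeightedHomogeneous w ((a t : MvPolynomial (Fin n) ℂ)) 0 := by
    have h2 : ((a t : MvPolynomial (Fin n) ℂ)) = C (a t : ℂ) := by rw [map_natCast]
    rw [h2]
    exact isWeightedHomogeneous_C _ _
  by_cases h : w i ≤ N t
  · have h1 : ∑ t, N t - w i = 0 + (N t - w i) + ∑ r ∈ Finset.univ.erase t, N r := by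
      rw [← Finset.add_sum_erase _ _ (Finset.mem_univ t)]
      omega
    rw [h1]
    exact (h0.mul ((hg t).pderiv (by omega))).mul (IsWeightedHomogeneous.prod _ _ _ fun r _ => hg r)
  · have h1 : pderiv i (g t) = 0 := by
      ext α
      rw [coeff_pderiv, coeff_zero]
      by_contra hc
      have h2 : coeff (α + Finsupp.single i 1) (g t) ≠ 0 := fun h3 => hc (by rw [h3, zero_mul])
      have h3 := hg t h2
      rw [Finsupp.weight_apply, Finsupp.sum_fintype _ _ (by simp)] at h3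
      have h5 : (α + Finsupp.single i 1 : Fin n →₀ ℕ) i • w i ≤
          ∑ l, (α + Finsupp.single i 1 : Fin n →₀ ℕ) l • w l :=
        Finset.single_le_sum (f := fun l => (α + Finsupp.single i 1 : Fin n →₀ ℕ) l • w l)
          (fun _ _ => Nat.zero_le _) (Finset.mem_univ i)
      rw [h3, smul_eq_mul, Finsupp.add_apply, Finsupp.single_eq_same] at h5
      have h6 := Nat.mul_le_mul_right (w i) (Nat.le_add_left 1 (α i))
      omega
    rw [h1, mul_zero, zero_mul]
    exact isWeightedHomogeneous_zero _ _ _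

/-- the weighted Euler relation -/
theorem lg_euler_w {n : ℕ} (g : Fin T → MvPolynomial (Fin n) ℂ) (a : Fin T → ℕ) (w : Fin n → ℕ)
    (N : Fin T → ℕ) (hg : ∀ t, IsWeightedHomogeneous w (g t) (N t)) :
    ∑ i, (C (w i : ℂ) * X i) * lg g a i = C ((∑ t, a t * N t : ℕ) : ℂ) * ∏ t, g t := by
  have h1 : ∀ i, (C (w i : ℂ) * X i) * lg g a i = ∑ t, (a t : MvPolynomial (Fin n) ℂ) *
      ((C (w i : ℂ) * X i) * pderiv i (g t)) * ∏ r ∈ Finset.univ.erase t, g r := by
    intro i
    rw [lg_def, Finset.mul_sum]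
    exact Finset.sum_congr rfl fun t _ => by ring
  rw [Finset.sum_congr rfl fun i _ => h1 i, Finset.sum_comm]
  have h2 : ∀ t, ∑ i, (a t : MvPolynomial (Fin n) ℂ) * ((C (w i : ℂ) * X i) * pderiv i (g t)) *
      ∏ r ∈ Finset.univ.erase t, g r = C ((a t * N t : ℕ) : ℂ) * ∏ t, g t := by
    intro t
    rw [← Finset.sum_mul, ← Finset.mul_sum, Z.euler_w w (g t) (N t) (hg t),
      ← Finset.mul_prod_erase Finset.univ g (Finset.mem_univ t)]
    push_cast
    rw [map_mul, map_natCast, map_natCast]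
    ring
  rw [Finset.sum_congr rfl fun t _ => h2 t, ← Finset.sum_mul, ← map_sum]
  push_cast
  rfl

/-- the Euler relation -/
theorem lg_euler {n : ℕ} (F : Fin T → MvPolynomial (Fin n) ℂ) (a : Fin T → ℕ) (d : Fin T → ℕ)
    (hF : ∀ t, (F t).IsHomogeneous (d t)) :
    ∑ i, X i * lg F a i = C ((∑ t, a t * d t : ℕ) : ℂ) * ∏ t, F t := by
  have h1 := lg_euler_w F a (fun _ => 1) d hF
  rw [← h1]
  refine Finset.sum_congr rfl fun i _ => ?_
  rw [Nat.cast_one, map_one, one_mul]

theorem pow_hom {n : ℕ} (F : Fin T → MvPolynomial (Fin n) ℂ) (a : Fin T → ℕ) (d : Fin T → ℕ)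
    (hF : ∀ t, (F t).IsHomogeneous (d t)) :
    (∏ t, F t ^ a t).IsHomogeneous (∑ t, a t * d t) := by
  refine IsHomogeneous.prod _ _ _ fun t _ => ?_
  have := (hF t).pow (a t)
  rwa [mul_comm] at this

end poly

end Pool.Agent.H940.P
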