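import Pool.Agent.H940.P.SFm
import Pool.Agent.H940.G.Main
import Pool.Agent.H940.LT.RootV

set_option autoImplicit false
set_option linter.unusedSectionVars false
set_option linter.unusedVariables false

/-! # Products of powers of forms -/

namespace Pool.Agent.H940.P

open MvPolynomial Pool.Agent.W428.MOT Pool.Agent.TH192.MT Pool.Agent.TH192.DT Pool.Agent.Q49.CO
open Pool.Agent.Q57.QM Pool.Agent.Y229 Pool.Agent.Q57.MC Pool.Agent.Q57.MD
open Pool.Agent.W574.LM (IsLocEq)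
open Pool.Agent.H940.Z Pool.Agent.H940.G
open Pool.Agent.H940.LT (eval_homog euler_hom root_or_field')

/-- The series `Z` is rational, and for every finite set `B` there is a denominator such that the
values in `B` are in `R`. -/
def Av (R : Finset ℂ) (Z : PowerSeries (MK ℂ)) : Prop :=
  ∀ B : Finset ℂ, ∃ S : Finset (ℤ × ℤ), (∀ q ∈ S, q.1 < 0 ∧ 0 < q.2 ∧
    ((q.1 : ℂ) / q.2 ∈ B → (q.1 : ℂ) / q.2 ∈ R)) ∧ Z ∈ ratU (Lu ℂ) (S : Set (ℤ × ℤ))

variable {n T : ℕ}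

section out

variable {v : Fin (n + 1) → MvPolynomial (Fin (n + 1)) ℂ} {m : ℕ}
  (hv : ∀ j, (v j).IsHomogeneous m)

/-- elements of the ideal -/
theorem vn_mem' {σ ι : Type} [Fintype σ] [Fintype ι] {v : ι → MvPolynomial σ ℂ} {e : ℕ}
    {γ : Arc ℂ σ} (h : ∀ s, Vn e (aeval γ (v s))) {P : MvPolynomial σ ℂ}
    (hP : P ∈ Ideal.span (Set.range v)) : Vn e (aeval γ P) := by
  obtain ⟨c, rfl⟩ := (Ideal.mem_span_range_iff_exists_fun (R := MvPolynomial σ ℂ)).1 hP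
  rw [map_sum]
  refine vn_sum _ _ fun i _ => ?_
  rw [map_mul]
  exact vn_mul _ (h i)

/-- the orders near a line -/
theorem line_bdd' (i : Fin (n + 1)) (q : Fin n → ℂ) (L : ℕ)
    (U : MvPolynomial (Fin (n + 1)) ℂ)
    (hU : ∀ x : Fin (n + 1) → ℂ, x i ≠ 0 → (∀ t, x (i.succAbove t) = q t * x i) → eval x U ≠ 0)
    (h : ∀ t, U * an i q t ^ L ∈ Ideal.span (Set.range v)) (k : ℕ)
    (γ : Arc ℂ (Fin (n + 1))) (h1 : Tb i q 1 γ) (h2 : ¬ Tb i q k γ) :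
    ∃ s, ¬ Vn ((L + 1) * k) (aeval γ (v s)) := by
  by_contra hc
  push Not at hc
  apply h2
  refine ⟨h1.1, fun t => ?_⟩
  refine vn_of_pow (M := L + 1) ?_ (Nat.succ_pos L)
  have h3 := vn_mem' hc (Ideal.mul_mem_left _ (an i q t) (h t))
  have h4 : an i q t * (U * an i q t ^ L) = U * an i q t ^ (L + 1) := by ring
  rw [h4, map_mul, map_pow, vn_unit] at h3
  · exact h3
  · rw [coeff_zero_aevalK]
    obtain ⟨p, hp⟩ := exists_pt (fun j => PowerSeries.coeff 0 (γ j))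
    rw [hp]
    rw [Ne, aeval_pt_zero]
    have h5 := (Tb_one i q γ).1 h1
    rw [hp] at h5
    obtain ⟨h6, h7⟩ := h5
    refine hU p ?_ fun t => ?_
    · intro h8
      apply h6
      change algebraMap ℂ (AlgebraicClosure ℂ) (p i) = 0
      rw [h8, map_zero]
    · have h8 := h7 t
      rw [← map_mul, ← map_sub, map_eq_zero_iff _ (algebraMap ℂ (AlgebraicClosure ℂ)).injective]
        at h8
      linear_combination h8

variable (hpow : ∀ s : Fin (n + 1) × (Fin n → ℂ), Zv v (pt s) →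
      ∃ (L : ℕ) (U : MvPolynomial (Fin (n + 1)) ℂ),
      (∀ x : Fin (n + 1) → ℂ, On s x → eval x U ≠ 0) ∧
      ∀ t, U * an s.1 s.2 t ^ L ∈ Ideal.span (Set.range v))
  {M : Meas ℂ (MK ℂ)} (hL : M.L = ((Lu ℂ : (MK ℂ)ˣ) : MK ℂ))
  (f : MvPolynomial (Fin (n + 1)) ℂ) (D : Set (ℤ × ℤ))
  (hbd : ∀ (e : ℕ) {P : Arc ℂ (Fin (n + 1)) → Prop} {q : ℕ}, Cyl P q →
    (∀ γ, P γ → ∃ s, ¬ Vn e (aeval γ (v s))) →
    VS M (((Lu ℂ)⁻¹ : (MK ℂ)ˣ) : MK ℂ) P f ∈ ratU (Lu ℂ) D)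
  (hD : ∀ s : Fin (n + 1) × (Fin n → ℂ), Cn s → Zv v (pt s) →
      VS M (((Lu ℂ)⁻¹ : (MK ℂ)ˣ) : MK ℂ) (Tb s.1 s.2 1) f ∈ ratU (Lu ℂ) D)
include hv hpow hL hbd hD

/-- **Volumes outside of the origin.** -/
theorem out_mem'
    {P : Arc ℂ (Fin (n + 1)) → Prop} {q : ℕ} (hP : Cyl P q) (hPo : ∀ γ, P γ → ¬ Or γ)
    (k : ℕ) (hk : 1 ≤ k) (hAN : ∀ s, AN P s k) :
    VS M (((Lu ℂ)⁻¹ : (MK ℂ)ˣ) : MK ℂ) P f ∈ ratU (Lu ℂ) D := by
  classical
  have hv' : M.L * (((Lu ℂ)⁻¹ : (MK ℂ)ˣ) : MK ℂ) = 1 := by rw [hL, Units.mul_inv]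
  set T := (finite_lines' hpow).toFinset with hT
  have hTm : ∀ s, s ∈ T ↔ Cn s ∧ Zv v (pt s) := fun s => Set.Finite.mem_toFinset _
  have hcT : Cyl (fun γ : Arc ℂ (Fin (n + 1)) => ∃ s ∈ T, Tb s.1 s.2 1 γ) 1 := by
    have h1 : (fun γ : Arc ℂ (Fin (n + 1)) => ∃ s ∈ T, Tb s.1 s.2 1 γ) =
        fun γ => ∃ s : T, Tb s.1.1 s.1.2 1 γ :=
      funext fun γ => propext ⟨fun ⟨s, hs, h⟩ => ⟨⟨s, hs⟩, h⟩, fun ⟨s, h⟩ => ⟨s.1, s.2, h⟩⟩
    rw [h1]
    exact Cyl.ex fun s => cyl_Tb _ _ 1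
  rw [VS_split M hv' hP hcT f]
  refine Subalgebra.add_mem _ ?_ ?_
  · have h1 : (fun γ => P γ ∧ ∃ s ∈ T, Tb s.1 s.2 1 γ) =
        fun γ => ∃ s ∈ T, P γ ∧ Tb s.1 s.2 1 γ :=
      funext fun γ => propext ⟨fun ⟨h, s, hs, h2⟩ => ⟨s, hs, h, h2⟩,
        fun ⟨s, hs, h, h2⟩ => ⟨h, s, hs, h2⟩⟩
    rw [h1, VS_sum M hv' T (q := max q 1) (fun s _ => (hP.mono (le_max_left _ _)).and
      ((cyl_Tb _ _ 1).mono (le_max_right _ _))) (by
        rintro s hs s' hs' hne γ ⟨_, h2⟩ ⟨_, h3⟩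
        obtain ⟨p, hp⟩ := origin_pt γ
        exact hne (((tb_on hp).1 h2).unique ((hTm s).1 hs).1 ((hTm s').1 hs').1
          ((tb_on hp).1 h3))) f]
    refine Subalgebra.sum_mem _ fun s hs => ?_
    obtain ⟨hs1, hs2⟩ := (hTm s).1 hs
    obtain ⟨L, U, hU, hmem⟩ := hpow s hs2
    have hbd' : ∀ γ, Tb s.1 s.2 1 γ → ¬ Tb s.1 s.2 k γ →
        ∃ j, ¬ Vn ((L + 1) * k) (aeval γ (v j)) := fun γ h2 h3 =>
      line_bdd' s.1 s.2 L U (fun x hx hx' => hU x ⟨hx, hx'⟩) hmem k γ h2 h3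
    have hcP : Cyl (fun γ => P γ ∧ Tb s.1 s.2 1 γ) (max q 1) :=
      (hP.mono (le_max_left _ _)).and ((cyl_Tb _ _ 1).mono (le_max_right _ _))
    rw [VS_split M hv' hcP (cyl_Tb s.1 s.2 k) f]
    refine Subalgebra.add_mem _ ?_ ?_
    · rcases hAN s with h2 | h2
      · have h3 : (fun γ => (P γ ∧ Tb s.1 s.2 1 γ) ∧ Tb s.1 s.2 k γ) = Tb s.1 s.2 k :=
          funext fun γ => propext ⟨fun h => h.2, fun h => ⟨⟨h2 γ h, Tb_mono hk h⟩, h⟩⟩
        have h4 := VS_split M hv' (cyl_Tb s.1 s.2 1) (cyl_Tb s.1 s.2 k) f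
        have h5 : (fun γ => Tb s.1 s.2 1 γ ∧ Tb s.1 s.2 k γ) = Tb s.1 s.2 k :=
          funext fun γ => propext ⟨fun h => h.2, fun h => ⟨Tb_mono hk h, h⟩⟩
        rw [h5] at h4
        rw [h3, ← sub_eq_iff_eq_add.2 h4]
        refine Subalgebra.sub_mem _ (hD s hs1 hs2) (hbd _
          (((cyl_Tb s.1 s.2 1).mono (le_max_left _ _)).and
            ((cyl_Tb s.1 s.2 k).mono (le_max_right _ _)).not) fun γ h => hbd' γ h.1 h.2)
      · rw [VS_false M hv' (fun γ h => h2 γ h.2 h.1.1) f]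
        exact zero_mem _
    · exact hbd _ ((hcP.mono (le_max_left _ _)).and
        ((cyl_Tb s.1 s.2 k).mono (le_max_right _ _)).not) fun γ h => hbd' γ h.1.2 h.2
  · refine hbd 1 ((hP.mono (le_max_left _ _)).and
      (hcT.mono (le_max_right _ _)).not) fun γ ⟨h1, h2⟩ => ?_
    by_contra hc
    push Not at hc
    obtain ⟨p, hp⟩ := origin_pt γ
    have hp0 : p ≠ 0 := by
      intro h0
      refine hPo γ h1 fun j => ?_
      rw [hp, h0, Pi.zero_apply, map_zero]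
    have hsg : Zv v p := by
      intro j
      have h3 := hc j 0 one_pos
      rw [coeff_zero_aevalK] at h3
      have h4 : (fun j => PowerSeries.coeff 0 (γ j)) =
          fun j => algebraMap ℂ (AlgebraicClosure ℂ) (p j) := funext hp
      rw [h4] at h3
      exact (aeval_pt_zero _ _).1 h3
    obtain ⟨s, hs1, hs2⟩ := exists_On p hp0
    exact h2 ⟨s, (hTm s).2 ⟨hs1, zv_on hv hs2 hsg⟩, (tb_on hp).2 hs2⟩

end out

section univ

variable {M : Meas ℂ (MK ℂ)} (hL : M.L = ((Lu ℂ : (MK ℂ)ˣ) : MK ℂ))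
include hL

/-- **The volumes of all arcs.** -/
theorem av_univ {f : MvPolynomial (Fin (n + 1)) ℂ} {d : ℕ} (hd : 1 ≤ d) (hf : f.IsHomogeneous d)
    (D : Finset (ℤ × ℤ)) (hDr : ∀ q ∈ D, q.1 < 0 ∧ 0 < q.2 ∧
      SF (fun _ : Fin 1 => f) 0 ((q.1 : ℂ) / q.2))
    (hout : ∀ (D' : Finset (ℤ × ℤ)), D ⊆ D' → ∀ (A : Matrix (Fin (n + 1)) (Fin (n + 1)) ℂ)
      (m : Fin (n + 1) → ℕ), VS M (((Lu ℂ)⁻¹ : (MK ℂ)ˣ) : MK ℂ)
        (fun γ => Box A m γ ∧ ¬ Or γ) f ∈ ratU (Lu ℂ) (D' : Set (ℤ × ℤ)))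
    (hsec : SF (fun _ : Fin 1 => f) 0 (-((n + 1 : ℕ) : ℂ) / d) ∨
      ∃ (A B : Matrix (Fin (n + 1)) (Fin (n + 1)) ℂ) (w : Fin (n + 1) → ℤ) (c₀ : ℕ),
      A * B = 1 ∧ B * A = 1 ∧ ∑ i, w i ≠ 0 ∧ 0 < c₀ ∧ (∀ i, 0 < w i + c₀) ∧ ∀ c ≥ c₀,
      ∀ γ : Arc ℂ (Fin (n + 1)), aeval (tt A B (fun i => (w i + c).toNat) γ) f =
        PowerSeries.X ^ (c * d) * aeval γ f) :
    ∃ R : Finset ℂ, (∀ α ∈ R, SF (fun _ : Fin 1 => f) 0 α) ∧
      Av R (VS M (((Lu ℂ)⁻¹ : (MK ℂ)ˣ) : MK ℂ) (fun _ => True) f) := by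
  classical
  have hsc : ∀ γ : Arc ℂ (Fin (n + 1)), aeval (fun i => PowerSeries.X * γ i) f =
      PowerSeries.X ^ d * aeval γ f := fun γ => aeval_homog f d hf γ _
  set R₀ : Finset ℂ := D.image fun q => (q.1 : ℂ) / q.2 with hR₀
  have hR₀s : ∀ α ∈ R₀, SF (fun _ : Fin 1 => f) 0 α := by
    intro α hα
    obtain ⟨q, hq, rfl⟩ := Finset.mem_image.1 hα
    exact (hDr q hq).2.2
  rcases hsec with h0 | ⟨A, A', w, c₀, hAA, hAA', hw, hc₀, hpos, hsec⟩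
  · refine ⟨insert (-((n + 1 : ℕ) : ℂ) / d) R₀, fun α hα => ?_, fun B => ?_⟩
    · rcases Finset.mem_insert.1 hα with rfl | hα
      · exact h0
      · exact hR₀s α hα
    · refine ⟨insert (-((n + 1 : ℕ) : ℤ), (d : ℤ)) D, fun q hq => ?_, ?_⟩
      · rcases Finset.mem_insert.1 hq with rfl | hq
        · refine ⟨by simp only; omega, by simp only; omega, fun _ => ?_⟩
          simp only
          push_cast
          exact Finset.mem_insert_self _ _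
        · exact ⟨(hDr q hq).1, (hDr q hq).2.1, fun _ => Finset.mem_insert_of_mem
            (Finset.mem_image.2 ⟨q, hq, rfl⟩)⟩
      · refine univ_scalar M (Lu ℂ) hL _ f d (by omega) hsc ?_ ?_
        · rw [Fintype.card_fin]
          exact Finset.mem_coe.2 (Finset.mem_insert_self _ _)
        · have h1 := hout (insert (-((n + 1 : ℕ) : ℤ), (d : ℤ)) D) (Finset.subset_insert _ _) 1
            (fun _ => 0)
          rw [box_zero M (Lu ℂ) hL] at h1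
          simp only [true_and] at h1
          exact h1
  · refine ⟨R₀, hR₀s, fun B => ?_⟩
    -- choose the second torus
    set r : ℕ → ℂ := fun c => -((∑ i, w i : ℤ) + ((n + 1 : ℕ) : ℂ) * c) / (c * d : ℕ) with hr
    have hinj : ∀ c c', 0 < c → 0 < c' → r c = r c' → c = c' := by
      intro c c' hc hc' h
      have hd0 : (d : ℂ) ≠ 0 := by
        have : d ≠ 0 := by omega
        exact_mod_cast this
      have hc0 : (c : ℂ) ≠ 0 := by exact_mod_cast hc.ne'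
      have hc0' : (c' : ℂ) ≠ 0 := by exact_mod_cast hc'.ne'
      have hw0 : ((∑ i, w i : ℤ) : ℂ) ≠ 0 := by exact_mod_cast hw
      simp only [hr] at h
      push_cast at h hw0
      rw [div_eq_div_iff (mul_ne_zero hc0 hd0) (mul_ne_zero hc0' hd0)] at h
      have h2 : (∑ i, (w i : ℂ)) * d * ((c : ℂ) - c') = 0 := by linear_combination h
      have h3 := (mul_eq_zero.1 h2).resolve_left (mul_ne_zero hw0 hd0)
      exact_mod_cast sub_eq_zero.1 h3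
    obtain ⟨c, hc, hrc⟩ : ∃ c ≥ c₀, r c ∉ B := by
      by_contra hcon
      push Not at hcon
      have h2 : Set.InjOn r (Set.Ici c₀) := fun x hx y hy h =>
        hinj x y (lt_of_lt_of_le hc₀ hx) (lt_of_lt_of_le hc₀ hy) h
      have h3 : (r '' Set.Ici c₀).Infinite := (Set.Ici_infinite c₀).image h2
      refine h3 (B.finite_toSet.subset ?_)
      rintro _ ⟨c, hc, rfl⟩
      exact hcon c hc
    have hposc : ∀ i, 0 < w i + c := fun i => by
      have := hpos i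
      omega
    set a : Fin (n + 1) → ℕ := fun i => (w i + c).toNat with ha
    have hasum : ((∑ i, a i : ℕ) : ℤ) = ∑ i, w i + (n + 1 : ℕ) * c := by
      rw [Nat.cast_sum]
      have h2 : ∀ i, ((a i : ℕ) : ℤ) = w i + c := fun i => Int.toNat_of_nonneg (hposc i).le
      rw [Finset.sum_congr rfl fun i _ => h2 i, Finset.sum_add_distrib, Finset.sum_const,
        Finset.card_univ, Fintype.card_fin, nsmul_eq_mul]
    have hapos : 0 < ∑ i, a i := Finset.sum_pos (fun i _ => by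
      have := hposc i
      simp only [ha]
      omega) ⟨0, Finset.mem_univ _⟩
    have hcd : 0 < c * d := Nat.mul_pos (by omega) (by omega)
    refine ⟨insert (-((∑ i, a i : ℕ) : ℤ), ((c * d : ℕ) : ℤ)) D, fun q hq => ?_, ?_⟩
    · rcases Finset.mem_insert.1 hq with rfl | hq
      · refine ⟨by simp only; omega, by simp only; exact_mod_cast hcd, fun hB => ?_⟩
        exfalso
        have h2 : (((-((∑ i, a i : ℕ) : ℤ) : ℤ) : ℂ) / (((c * d : ℕ) : ℤ) : ℂ)) = r c := by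
          rw [hasum, hr]
          push_cast
          ring
        simp only at hB
        rw [h2] at hB
        exact hrc hB
      · exact ⟨(hDr q hq).1, (hDr q hq).2.1, fun _ => Finset.mem_image.2 ⟨q, hq, rfl⟩⟩
    · exact univ_second M (Lu ℂ) hL _ f d hsc hAA hAA' a (c * d) hcd (hsec c hc)
        (Finset.mem_coe.2 (Finset.mem_insert_self _ _))
        (hout _ (Finset.subset_insert _ _) A)

/-- the arcs with origin `0` -/
theorem av_or {f : MvPolynomial (Fin (n + 1)) ℂ} {d : ℕ} (hf : f.IsHomogeneous d) {R : Finset ℂ}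
    (h : Av R (VS M (((Lu ℂ)⁻¹ : (MK ℂ)ˣ) : MK ℂ) (fun _ => True) f)) :
    Av R (VS M (((Lu ℂ)⁻¹ : (MK ℂ)ˣ) : MK ℂ) Or f) := by
  intro B
  obtain ⟨S, hS, hz⟩ := h B
  exact ⟨S, hS, or_of_univ M (Lu ℂ) hL _ f d (fun γ => aeval_homog f d hf γ _) hz⟩

/-- **Forms with locally weighted homogeneous isolated singularities.** -/
theorem av_lh {f : MvPolynomial (Fin (n + 1)) ℂ} {d : ℕ} (hd : 2 ≤ d) (hf : f.IsHomogeneous d)
    (hf0 : f ≠ 0) (H : LH f) :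
    ∃ R : Finset ℂ, (∀ α ∈ R, SF (fun _ : Fin 1 => f) 0 α) ∧
      Av R (VS M (((Lu ℂ)⁻¹ : (MK ℂ)ˣ) : MK ℂ) (fun _ => True) f) := by
  obtain ⟨D, hD, hD1, hDl⟩ := exists_pairs hd hf hf0 H hL
  refine av_univ hL (by omega) hf D hD (fun D' hDD A m => ?_) (sf_or_second hd hf hf0 H)
  exact out_mem hd hf hf0 H hL _ (Finset.mem_coe.2 (hDD hD1))
    (fun s hs hs' => rat_mono (Lu ℂ) (Finset.coe_subset.2 hDD) (hDl s hs hs'))
    ((cyl_Box A m).and (cyl_Or _).not)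
    (fun γ h => h.2) (∑ i, m i + 1) (Nat.succ_pos _) (an_box A m)

end univ

section tuples

variable {F : Fin T → MvPolynomial (Fin (n + 1)) ℂ} {d : Fin T → ℕ}
  (hd : ∀ t, 1 ≤ d t)
  (hd2 : 2 ≤ ∑ t, d t) (hF : ∀ t, (F t).IsHomogeneous (d t)) (hF0 : ∀ t, F t ≠ 0)
  (H : LHT F) (a : Fin T → ℕ) (ha : ∀ t, 1 ≤ a t)
include hd hd2 hF hF0 ha H

/-- **The root of the vertex, or a second torus.** -/
theorem sf_or_second' : SF (fun _ : Fin 1 => ∏ t, F t ^ a t) 0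
      (-((n + 1 : ℕ) : ℂ) / (∑ t, a t * d t : ℕ)) ∨
    ∃ (A B : Matrix (Fin (n + 1)) (Fin (n + 1)) ℂ) (w : Fin (n + 1) → ℤ) (c₀ : ℕ),
      A * B = 1 ∧ B * A = 1 ∧ ∑ i, w i ≠ 0 ∧ 0 < c₀ ∧ (∀ i, 0 < w i + c₀) ∧ ∀ c ≥ c₀,
      ∀ γ : Arc ℂ (Fin (n + 1)), aeval (tt A B (fun i => (w i + c).toNat) γ) (∏ t, F t ^ a t) =
        PowerSeries.X ^ (c * (∑ t, a t * d t)) * aeval γ (∏ t, F t ^ a t) := by
  classical
  set f := ∏ t, F t ^ a t with hfdef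
  set N := ∑ t, a t * d t with hN
  have hf : f.IsHomogeneous N := pow_hom F a d hF
  have hf0 : f ≠ 0 := Finset.prod_ne_zero_iff.2 fun t _ => pow_ne_zero _ (hF0 t)
  have hg0 : ∏ t, F t ≠ 0 := Finset.prod_ne_zero_iff.2 fun t _ => hF0 t
  have hN0 : (N : ℂ) ≠ 0 := na_ne hd hd2 hF hF0 a ha
  have hN1 : 1 ≤ N := by
    have : N ≠ 0 := by exact_mod_cast hN0
    omega
  rw [or_iff_not_imp_left]
  intro hSF
  obtain ⟨H', b, hb, hH', hbα⟩ : ∃ (H' : MvPolynomial (Fin (n + 1)) ℂ) (b : Polynomial ℂ),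
      IsLocEq H' (fun _ : Fin 1 => f) b ∧ eval 0 H' ≠ 0 ∧ b.eval (-((n + 1 : ℕ) : ℂ) / N) ≠ 0 := by
    by_contra hc
    push Not at hc
    exact hSF (sf_of_local _ _ _ (fun H' b hb hH => hc H' b hb hH) (exists_fe _ ⟨0, hf0⟩))
  obtain ⟨P, hP⟩ := eq_of_locEq1 H' _ b hb
  have hc0 : constantCoeff f = 0 := by
    have h2 := eval_homog f N hf 0 0
    rw [zero_pow (by omega), zero_mul, zero_smul, eval_zero] at h2
    exact h2
  have hdv : constantCoeff (Pool.Agent.H940.LT.dv fun i : Fin (n + 1) =>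
      (X i : MvPolynomial (Fin (n + 1)) ℂ)) =
      ((n + 1 : ℕ) : ℂ) := by
    unfold Pool.Agent.H940.LT.dv
    rw [map_sum]
    simp only [pderiv_X_self, map_one]
    rw [Finset.sum_const, Finset.card_univ, Fintype.card_fin, nsmul_eq_mul, mul_one]
  rcases root_or_field' f (∏ t, F t) (lg F a) (fun i => lg_mul F a i) hf0 hg0 hc0
    (lty' hd hd2 hF hF0 H a ha) (fun i => X i) N hN0 (euler_hom f N hf)
    (fun i => by rw [constantCoeff_X]) H' (by rwa [eval_zero] at hH') b P hP with h1 | ⟨η, h1, h2⟩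
  · rw [hdv] at h1
    exact absurd h1 hbα
  · exact exists_second f N hN1 hf η
      (Pool.Agent.H940.LT.kill_of f (∏ t, F t) (lg F a) (fun i => lg_mul F a i) hg0 η h1) h2

variable {M : Meas ℂ (MK ℂ)} (hL : M.L = ((Lu ℂ : (MK ℂ)ˣ) : MK ℂ))
include hL

/-- **Products of powers of forms, if the germs satisfy the statement of the induction.** -/
theorem av_tuple (hn : 2 ≤ n) (hpm : ∀ s : Fin (n + 1) × (Fin n → ℂ), Zv (lg F a) (pt s) →
      PM M true (fun _ : Fin 1 => germAt s.1 s.2 (∏ t, F t ^ a t))) :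
    ∃ R : Finset ℂ, (∀ α ∈ R, SF (fun _ : Fin 1 => ∏ t, F t ^ a t) 0 α) ∧
      Av R (VS M (((Lu ℂ)⁻¹ : (MK ℂ)ˣ) : MK ℂ) (fun _ => True) (∏ t, F t ^ a t)) := by
  classical
  set f := ∏ t, F t ^ a t with hfdef
  set N := ∑ t, a t * d t with hN
  have hf : f.IsHomogeneous N := pow_hom F a d hF
  have hN0 : (N : ℂ) ≠ 0 := na_ne hd hd2 hF hF0 a ha
  have hN1 : 1 ≤ N := by
    have : N ≠ 0 := by exact_mod_cast hN0
    omega
  choose! S hS1 hS2 using fun (s : Fin (n + 1) × (Fin n → ℂ)) (h : Zv (lg F a) (pt s)) =>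
    line_pm hL f N hf s.1 s.2 (hpm s h)
  set T' := (finite_lines' fun s hs => pow_line' hd hd2 hF hF0 H a ha hs).toFinset with hT'
  set D : Finset (ℤ × ℤ) := (Finset.univ.image fun t => ((-1 : ℤ), (a t : ℤ))) ∪ T'.biUnion S
    with hD
  have hDr : ∀ q ∈ D, q.1 < 0 ∧ 0 < q.2 ∧ SF (fun _ : Fin 1 => f) 0 ((q.1 : ℂ) / q.2) := by
    intro q hq
    rcases Finset.mem_union.1 hq with hq | hq
    · obtain ⟨t, -, rfl⟩ := Finset.mem_image.1 hq
      refine ⟨by norm_num, by have := ha t; simp only; omega, ?_⟩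
      have h1 := sf_mult hn hd hd2 hF hF0 H a ha t
      simp only
      push_cast
      exact h1
    · obtain ⟨s, hs, hqs⟩ := Finset.mem_biUnion.1 hq
      exact hS1 s ((Set.Finite.mem_toFinset _).1 hs).2 q hqs
  refine av_univ hL hN1 hf D hDr (fun D' hDD A m => ?_) (sf_or_second' hd hd2 hF hF0 H a ha)
  refine out_mem' (lg_hom F a d hd hF) (fun s hs => pow_line' hd hd2 hF hF0 H a ha hs) hL f
    (D' : Set (ℤ × ℤ)) (fun e {P} {q} hP h => VS_lg_bdd M (Lu ℂ) hL F a ha (fun t => ?_) e hP h)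
    (fun s hs1 hs2 => ?_) ((cyl_Box A m).and (cyl_Or _).not)
    (fun γ h => h.2) (∑ i, m i + 1) (Nat.succ_pos _) (an_box A m)
  · exact Finset.mem_coe.2 (hDD (Finset.mem_union_left _
      (Finset.mem_image.2 ⟨t, Finset.mem_univ _, rfl⟩)))
  · refine rat_mono (Lu ℂ) ?_ (hS2 s hs2)
    intro q hq
    exact Finset.mem_coe.2 (hDD (Finset.mem_union_right _ (Finset.mem_biUnion.2
      ⟨s, (Set.Finite.mem_toFinset _).2 ⟨hs1, hs2⟩, hq⟩)))

end tuples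

/-- the germ of a nonzero form -/
theorem germ_ne (f : MvPolynomial (Fin (n + 1)) ℂ) (d : ℕ) (hf : f.IsHomogeneous d) (hf0 : f ≠ 0)
    (i : Fin (n + 1)) (q : Fin n → ℂ) : germAt i q f ≠ 0 := by
  intro h
  apply hf0
  refine eq_of_eval i _ _ fun x hx => ?_
  rw [eval_germAt i q f d hf x hx, h, map_zero, map_zero, mul_zero]

/-- **Products of powers of ternary forms.** -/
theorem av_ternary {F : Fin T → MvPolynomial (Fin 3) ℂ} {d : Fin T → ℕ}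
    (hd : ∀ t, 1 ≤ d t)
    (hd2 : 2 ≤ ∑ t, d t) (hF : ∀ t, (F t).IsHomogeneous (d t)) (hF0 : ∀ t, F t ≠ 0)
    (H : LHT (n := 2) F) (a : Fin T → ℕ) (ha : ∀ t, 1 ≤ a t)
    {M : Meas ℂ (MK ℂ)} (hL : M.L = ((Lu ℂ : (MK ℂ)ˣ) : MK ℂ)) :
    ∃ R : Finset ℂ, (∀ α ∈ R, SF (fun _ : Fin 1 => ∏ t, F t ^ a t) 0 α) ∧
      Av R (VS M (((Lu ℂ)⁻¹ : (MK ℂ)ˣ) : MK ℂ) (fun _ => True) (∏ t, F t ^ a t)) :=
  av_tuple (n := 2) hd hd2 hF hF0 H a ha hL le_rfl fun s _ =>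
    st_plane hL _ ⟨0, germ_ne _ _ (pow_hom F a d hF)
      (Finset.prod_ne_zero_iff.2 fun t _ => pow_ne_zero _ (hF0 t)) s.1 s.2⟩

end Pool.Agent.H940.P
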