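import Pool.Agent.H940.P.Main
import Pool.Graph.R_pool_sql_team_seeded_3997aac3.Q57.QT.Lin

set_option autoImplicit false
set_option linter.unusedSectionVars false
set_option linter.unusedVariables false

/-! # The topological zeta functions -/

namespace Pool.Agent.H940.P

open MvPolynomial Pool.Agent.W428.MOT Pool.Agent.TH192.MT Pool.Agent.TH192.DT Pool.Agent.Q49.CO
open Pool.Agent.Q57.QM Pool.Agent.Y229 Pool.Agent.Q57.MC Pool.Agent.Q57.MD Pool.Agent.Q57.QT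
open Pool.Agent.TH192.MU (zetaId IsTopZeta SpecAt IsMultiTop)
open Pool.Agent.H628R4.TP (IsBFunction IsLocalBFunction)
open Pool.Agent.H940.Z Pool.Agent.H940.G

/-- The motivic zeta function of `f` is rational, and for every finite set `B` there is a denominator
such that the values in `B` are roots of the `b`-functions. -/
def MA {σ : Type} [Fintype σ] [DecidableEq σ] (f : MvPolynomial σ ℂ) : Prop :=
  ∀ B : Finset ℂ, ∃ S : Finset (ℤ × ℤ), (∀ q ∈ S, q.1 < 0 ∧ 0 < q.2 ∧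
    ((q.1 : ℂ) / q.2 ∈ B → ∀ b, IsBFunction f b → b.eval ((q.1 : ℂ) / q.2) = 0)) ∧
    zetaId (fun _ : Fin 1 => f) ∈ ratRing ℂ (S : Set (ℤ × ℤ))

/-- the local version -/
def MAL {n : ℕ} (f : MvPolynomial (Fin n) ℂ) : Prop :=
  ∀ B : Finset ℂ, ∃ S : Finset (ℤ × ℤ), (∀ q ∈ S, q.1 < 0 ∧ 0 < q.2 ∧
    ((q.1 : ℂ) / q.2 ∈ B → ∀ b, IsLocalBFunction f b → b.eval ((q.1 : ℂ) / q.2) = 0)) ∧
    zetaJ (fun _ : Fin 1 => f) ∈ ratRing ℂ (S : Set (ℤ × ℤ))

section av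

variable {n : ℕ} {f : MvPolynomial (Fin (n + 1)) ℂ} {d : ℕ} (hf : f.IsHomogeneous d)
  (h : ∀ {M : Meas ℂ (MK ℂ)}, M.L = ((Lu ℂ : (MK ℂ)ˣ) : MK ℂ) →
    ∃ R : Finset ℂ, (∀ α ∈ R, SF (fun _ : Fin 1 => f) 0 α) ∧
      Av R (VS M (((Lu ℂ)⁻¹ : (MK ℂ)ˣ) : MK ℂ) (fun _ => True) f))
include hf h

theorem ma_of_av : MA f := by
  intro B
  obtain ⟨M, hL, hχ⟩ := exists_meas ℂ
  have hv : M.L * (((Lu ℂ)⁻¹ : (MK ℂ)ˣ) : MK ℂ) = 1 := by rw [hL, Units.mul_inv]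
  obtain ⟨R, hR, hav⟩ := h hL
  obtain ⟨S, hS, hz⟩ := hav B
  refine ⟨S, fun q hq => ⟨(hS q hq).1, (hS q hq).2.1, fun hB b hb => ?_⟩,
    (zetaId_iff hL hχ _ _).2 (ZW_of_VW M (Lu ℂ) (fun q hq => (hS q hq).2.1) ?_)⟩
  · exact sf_forced (hR _ ((hS q hq).2.2 hB)) b (locEq1_of_eq f b hb)
  · rw [vw_univ hv]
    exact hz

theorem mal_of_av : MAL f := by
  intro B
  obtain ⟨M, hL, hχ⟩ := exists_meas ℂ
  have hv : M.L * (((Lu ℂ)⁻¹ : (MK ℂ)ˣ) : MK ℂ) = 1 := by rw [hL, Units.mul_inv]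
  obtain ⟨R, hR, hav⟩ := h hL
  obtain ⟨S, hS, hz⟩ := av_or hL hf hav B
  refine ⟨S, fun q hq => ⟨(hS q hq).1, (hS q hq).2.1, fun hB b hb => ?_⟩,
    (zeta_iff hL hχ _ _).2 (ZW_of_VW M (Lu ℂ) (fun q hq => (hS q hq).2.1) ?_)⟩
  · exact (hR _ ((hS q hq).2.2 hB)).localBI b (localBI_one f b hb)
  · rw [vw_zero hv]
    exact hz

end av

section top

variable {R : Type} [CommRing R] [IsDomain R] (E : MK ℂ →+* R) (ε : R →+* ℂ)
  (hε : ε (E ((Lu ℂ : (MK ℂ)ˣ) : MK ℂ)) = 1) (hE : E ((Lu ℂ : (MK ℂ)ˣ) : MK ℂ) ≠ 1)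
include hε hE

/-- **The poles of the global topological zeta function.** -/
theorem ma_top {σ : Type} [Fintype σ] [DecidableEq σ] {f : MvPolynomial σ ℂ} (h : MA f)
    (Z : RatFunc ℂ) (hZ : IsTopZeta E ε (zetaM f Set.univ {c | c ≠ 0}) Z) (s₀ : ℂ)
    (hs : Z.denom.eval s₀ = 0) (b : Polynomial ℂ) (hb : IsBFunction f b) : b.eval s₀ = 0 := by
  rw [← zetaId_one] at hZ
  obtain ⟨S, hS, hz⟩ := h {s₀}
  obtain ⟨q, hq, h1⟩ := top_poles E ε hε hE _ (fun q hq => ⟨(hS q hq).1, (hS q hq).2.1⟩) _ hz Z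
    hZ s₀ hs
  rw [h1]
  exact (hS q hq).2.2 (by rw [← h1]; exact Finset.mem_singleton_self _) b hb

/-- **The poles of the local topological zeta function.** -/
theorem mal_top {n : ℕ} {f : MvPolynomial (Fin n) ℂ} (h : MAL f)
    (Z : RatFunc ℂ) (hZ : IsTopZeta E ε (zetaO f) Z) (s₀ : ℂ)
    (hs : Z.denom.eval s₀ = 0) (b : Polynomial ℂ) (hb : IsLocalBFunction f b) :
    b.eval s₀ = 0 := by
  rw [← zetaJ_one] at hZ
  obtain ⟨S, hS, hz⟩ := h {s₀}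
  obtain ⟨q, hq, h1⟩ := top_poles E ε hε hE _ (fun q hq => ⟨(hS q hq).1, (hS q hq).2.1⟩) _ hz Z
    hZ s₀ hs
  rw [h1]
  exact (hS q hq).2.2 (by rw [← h1]; exact Finset.mem_singleton_self _) b hb

/-- the values of the zeta function of a power -/
theorem specAt_of_pow' {σ : Type} [Fintype σ] (F : MvPolynomial σ ℂ) (S : Finset (ℤ × ℤ))
    (h1 : ∀ q ∈ S, q.1 < 0 ∧ 0 < q.2)
    (h2 : zetaId (fun _ : Fin 1 => F) ∈ ratRing ℂ (S : Set (ℤ × ℤ))) (s : ℕ) (hs : 0 < s) (c : ℂ)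
    (h : SpecAt (Units.map (E : MK ℂ →* R) (Lu ℂ)) ε
      (PowerSeries.map E (zetaM (F ^ s) Set.univ {c | c ≠ 0})) 1 c) :
    SpecAt (Units.map (E : MK ℂ →* R) (Lu ℂ)) ε
      (PowerSeries.map E (zetaM F Set.univ {c | c ≠ 0})) s c := by
  classical
  have hs0 : s ≠ 0 := hs.ne'
  rw [← zetaId_one, zetaId_pow F s hs0, PowerSeries.map_expand] at h
  rw [← zetaId_one]
  set U : Rˣ := Units.map (E : MK ℂ →* R) (Lu ℂ) with hU
  set w : R := ((U⁻¹ : Rˣ) : R) with hwd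
  have hUE : (U : R) = E ((Lu ℂ : (MK ℂ)ˣ) : MK ℂ) := rfl
  have hw : E ((Lu ℂ : (MK ℂ)ˣ) : MK ℂ) * w = 1 := by
    rw [← hUE, hwd, Units.mul_inv]
  have hεw : ε w = 1 := by
    have h1 := congrArg ε hw
    rw [map_mul, hε, one_mul, map_one] at h1
    exact h1
  have hw1 : w ≠ 1 := by
    intro h0
    rw [h0, mul_one] at hw
    exact hE hw
  obtain ⟨Q, P, ⟨M, B, hB1, hB2, hB3⟩, hQP⟩ := exists_den (E := E) (ε := ε) hw hεw
    (D := (S : Set (ℤ × ℤ))) (fun q hq => h1 q hq) _ h2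
  have hQPE : ((Q.map E : Polynomial R) : PowerSeries R) *
      PowerSeries.map E (zetaId fun _ : Fin 1 => F) = ((P.map E : Polynomial R) : PowerSeries R) := by
    have h1 := congrArg (PowerSeries.map E) hQP
    rw [map_mul, ← Polynomial.polynomial_map_coe, ← Polynomial.polynomial_map_coe] at h1
    exact h1
  refine specAt_expand (Q.map E) (P.map E) hQPE s hs0 ?_ h
  obtain ⟨k, rfl⟩ : ∃ k, s = k + 1 := ⟨s - 1, by omega⟩
  obtain ⟨q, hq1, hq2⟩ := hB3 k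
  rw [Units.val_pow_eq_pow_val, ← hwd, hq1]
  refine mul_ne_zero (pow_ne_zero _ (sub_ne_zero.2 hw1.symm)) fun h0 => ?_
  rw [h0, map_zero] at hq2
  obtain ⟨p, hp, hp'⟩ := hB1 _ hq2.symm
  have h3 := h1 p hp
  have h4 : ((k + 1 : ℕ) : ℂ) * (p.2 : ℂ) = (p.1 : ℂ) := by
    have h5 : (p.2 : ℂ) ≠ 0 := by exact_mod_cast h3.2.ne'
    rw [hp']
    field_simp
  have h6 : ((k + 1 : ℕ) : ℤ) * p.2 = p.1 := by exact_mod_cast h4
  have h7 : 0 < ((k + 1 : ℕ) : ℤ) * p.2 := mul_pos (by positivity) h3.2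
  have h8 := h3.1
  omega

/-- **The lines of the topological zeta function in several variables.** -/
theorem line_pole' {n T : ℕ} (F : Fin T → MvPolynomial (Fin n) ℂ) (a : Fin T → ℕ)
    (ha : ∀ t, 1 ≤ a t) (hF : MA (∏ t, F t ^ a t))
    (g h : MvPolynomial (Fin T) ℂ)
    (hZ : IsMultiTop E ε (fun a => zetaM (∏ t, F t ^ a t) Set.univ {c | c ≠ 0}) g h) (s₀ : ℂ)
    (hg : eval (fun t => s₀ * a t) g ≠ 0) (hh : eval (fun t => s₀ * a t) h = 0)
    (b : Polynomial ℂ) (hb : IsBFunction (∏ t, F t ^ a t) b) : b.eval s₀ = 0 := by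
  classical
  -- restriction to the line
  set L : MvPolynomial (Fin T) ℂ → Polynomial ℂ := fun G =>
    aeval (fun t => Polynomial.C (a t : ℂ) * Polynomial.X) G with hL
  have hLe : ∀ (G : MvPolynomial (Fin T) ℂ) (z : ℂ), (L G).eval z =
      eval (fun t => z * a t) G := by
    intro G z
    have h1 : ((Polynomial.evalRingHom z).comp ((aeval fun t => Polynomial.C (a t : ℂ) *
        Polynomial.X : MvPolynomial (Fin T) ℂ →ₐ[ℂ] Polynomial ℂ) :
          MvPolynomial (Fin T) ℂ →+* Polynomial ℂ)) = (eval fun t => z * a t) := by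
      refine MvPolynomial.ringHom_ext (fun r => ?_) fun t => ?_
      · simp
      · simp
        ring
    exact congrArg (fun φ : MvPolynomial (Fin T) ℂ →+* ℂ => φ G) h1
  have hval : ∀ s : ℕ, 0 < s → ∃ c, SpecAt (Units.map (E : MK ℂ →* R) (Lu ℂ)) ε
      (PowerSeries.map E (zetaM (∏ t, F t ^ a t) Set.univ {c | c ≠ 0})) s c ∧
      (L h).eval (s : ℂ) ≠ 0 ∧ (L g).eval (s : ℂ) = c * (L h).eval (s : ℂ) := by
    intro s hs
    obtain ⟨c, h1, h2, h3⟩ := hZ (fun t => s * a t) fun t => Nat.mul_pos hs (ha t)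
    refine ⟨c, ?_, ?_, ?_⟩
    · obtain ⟨S, hS, hz⟩ := hF ∅
      refine specAt_of_pow' E ε hε hE _ S (fun q hq => ⟨(hS q hq).1, (hS q hq).2.1⟩) hz s hs c ?_
      have h4 : (∏ t, F t ^ a t) ^ s = ∏ t, F t ^ (s * a t) := by
        rw [← Finset.prod_pow]
        exact Finset.prod_congr rfl fun t _ => by rw [← pow_mul, mul_comm]
      rw [h4]
      exact h1
    · rw [hLe]
      push_cast at h2
      exact h2
    · rw [hLe, hLe]
      push_cast at h3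
      exact h3
  have hLh : L h ≠ 0 := by
    obtain ⟨c, _, h2, _⟩ := hval 1 Nat.one_pos
    intro h0
    rw [h0, Polynomial.eval_zero] at h2
    exact h2 rfl
  set Z : RatFunc ℂ := algebraMap (Polynomial ℂ) (RatFunc ℂ) (L g) /
    algebraMap (Polynomial ℂ) (RatFunc ℂ) (L h) with hZd
  have hcross : Z.num * L h = L g * Z.denom := by
    have h1 : algebraMap (Polynomial ℂ) (RatFunc ℂ) Z.num /
        algebraMap (Polynomial ℂ) (RatFunc ℂ) Z.denom =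
        algebraMap (Polynomial ℂ) (RatFunc ℂ) (L g) /
        algebraMap (Polynomial ℂ) (RatFunc ℂ) (L h) := by
      rw [RatFunc.num_div_denom]
    rw [div_eq_div_iff (RatFunc.algebraMap_ne_zero Z.denom_ne_zero)
      (RatFunc.algebraMap_ne_zero hLh), ← map_mul, ← map_mul] at h1
    exact RatFunc.algebraMap_injective ℂ h1
  have htop : IsTopZeta E ε (zetaM (∏ t, F t ^ a t) Set.univ {c | c ≠ 0}) Z := by
    intro s hs
    obtain ⟨c, h1, h2, h3⟩ := hval s hs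
    refine ⟨c, h1, ?_⟩
    have h4 := congrArg (Polynomial.eval (s : ℂ)) hcross
    rw [Polynomial.eval_mul, Polynomial.eval_mul, h3] at h4
    apply mul_right_cancel₀ h2
    linear_combination h4
  have hpole : Z.denom.eval s₀ = 0 := by
    have h4 := congrArg (Polynomial.eval s₀) hcross
    rw [Polynomial.eval_mul, Polynomial.eval_mul, hLe, hLe, hh, mul_zero] at h4
    exact (mul_eq_zero.1 h4.symm).resolve_left hg
  exact ma_top E ε hε hE hF Z htop s₀ hpole b hb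

/-- **The polar hyperplanes of the topological zeta function in several variables.** -/
theorem multi_shift' {n T : ℕ} (F : Fin T → MvPolynomial (Fin n) ℂ)
    (hF : ∀ a : Fin T → ℕ, (∀ t, 1 ≤ a t) → MA (∏ t, F t ^ a t))
    (g h : MvPolynomial (Fin T) ℂ) (hrel : IsRelPrime g h)
    (hZ : IsMultiTop E ε (fun a => zetaM (∏ t, F t ^ a t) Set.univ {c | c ≠ 0}) g h)
    (ν : ℕ) (hν : 0 < ν) (N : Fin T → ℕ) (hN : ∃ t, 0 < N t)
    (hH : ∀ z : Fin T → ℂ, (ν : ℂ) + ∑ t, (N t : ℂ) * z t = 0 → eval z h = 0) :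
    ∃ i : ℕ, ∀ b, InBF F b → ∀ z : Fin T → ℂ, (ν : ℂ) + ∑ t, (N t : ℂ) * z t = 0 →
      eval (fun t => z t + i) b = 0 := by
  refine exists_shift F ν hν N hN g (exists_ne_of_rel ν N hN g h hrel hH)
    fun a s₀ ha hs hg b hb => ?_
  exact line_pole' E ε hε hE F a ha (hF a ha) g h hZ s₀ hg (hH _ hs) b hb

end top

section ternary

variable {T : ℕ} {F : Fin T → MvPolynomial (Fin 3) ℂ} {d : Fin T → ℕ}
    (hd : ∀ t, 1 ≤ d t)
    (hd2 : 2 ≤ ∑ t, d t) (hF : ∀ t, (F t).IsHomogeneous (d t)) (hF0 : ∀ t, F t ≠ 0)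
    (H : LHT (n := 2) F) (a : Fin T → ℕ) (ha : ∀ t, 1 ≤ a t)
include hd hd2 hF hF0 H ha

theorem ma_ternary : MA (∏ t, F t ^ a t) :=
  ma_of_av (n := 2) (pow_hom F a d hF) fun {M} hL => av_ternary hd hd2 hF hF0 H a ha hL

theorem mal_ternary : MAL (∏ t, F t ^ a t) :=
  mal_of_av (n := 2) (pow_hom F a d hF) fun {M} hL => av_ternary hd hd2 hF hF0 H a ha hL

end ternary

end Pool.Agent.H940.P
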